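import Mathlib

set_option autoImplicit false
set_option maxHeartbeats 1000000

/-! The model saddle-point integral. -/

open Complex MeasureTheory Set Filter Topology

namespace Pool.Agent.Helper68.UL

noncomputable section

/-- the model integrand `exp (2n (e^(iθ) - 1 - iθ))` -/
def sad (n θ : ℝ) : ℂ := cexp (2 * n * (cexp (θ * I) - 1 - θ * I))

lemma sad_arg (n θ : ℝ) : (2 * n * (cexp (θ * I) - 1 - θ * I) : ℂ) =
    ((2 * n * (Real.cos θ - 1) : ℝ) : ℂ) + ((2 * n * (Real.sin θ - θ) : ℝ) : ℂ) * I := by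
  rw [Complex.exp_mul_I, ← Complex.ofReal_cos, ← Complex.ofReal_sin]
  push_cast
  ring

lemma norm_sad (n θ : ℝ) : ‖sad n θ‖ = Real.exp (2 * n * (Real.cos θ - 1)) := by
  unfold sad
  rw [Complex.norm_exp, sad_arg, Complex.add_re, Complex.ofReal_re, Complex.mul_re, Complex.ofReal_re,
    Complex.ofReal_im, Complex.I_re, Complex.I_im]
  congr 1
  ring

lemma re_sad (n θ : ℝ) : (sad n θ).re =
    Real.exp (2 * n * (Real.cos θ - 1)) * Real.cos (2 * n * (Real.sin θ - θ)) := by
  unfold sad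
  have e1 : (((2 * n * (Real.cos θ - 1) : ℝ) : ℂ) + ((2 * n * (Real.sin θ - θ) : ℝ) : ℂ) * I).re =
      2 * n * (Real.cos θ - 1) := by
    rw [Complex.add_re, Complex.ofReal_re, Complex.mul_re, Complex.ofReal_re,
    Complex.ofReal_im, Complex.I_re, Complex.I_im]
    ring
  have e2 : (((2 * n * (Real.cos θ - 1) : ℝ) : ℂ) + ((2 * n * (Real.sin θ - θ) : ℝ) : ℂ) * I).im =
      2 * n * (Real.sin θ - θ) := by
    rw [Complex.add_im, Complex.ofReal_im, Complex.mul_im, Complex.ofReal_re,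
    Complex.ofReal_im, Complex.I_re, Complex.I_im]
    ring
  rw [Complex.exp_re, sad_arg, e1, e2]

lemma cos_up {θ : ℝ} (h : |θ| ≤ Real.pi) : Real.cos θ - 1 ≤ -(θ ^ 2 / 5) := by
  have h1 := Real.cos_le_one_sub_mul_cos_sq h
  have h2 : Real.pi ^ 2 ≤ 10 := by
    have := Real.pi_lt_d2
    have h0 := Real.pi_pos
    nlinarith
  have h3 : (1 : ℝ) / 5 ≤ 2 / Real.pi ^ 2 := by
    rw [div_le_div_iff₀ (by norm_num) (by positivity)]
    linarith
  have h4 : θ ^ 2 * (1 / 5) ≤ θ ^ 2 * (2 / Real.pi ^ 2) :=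
    mul_le_mul_of_nonneg_left h3 (sq_nonneg θ)
  linarith

lemma norm_sad_le {n θ : ℝ} (hn : 0 ≤ n) (h : |θ| ≤ Real.pi) :
    ‖sad n θ‖ ≤ Real.exp (-(2 / 5 * (n * θ ^ 2))) := by
  rw [norm_sad]
  refine Real.exp_le_exp.2 ?_
  have := mul_le_mul_of_nonneg_left (cos_up h) (show 0 ≤ 2 * n by linarith)
  linarith

lemma sin_sub_abs {θ : ℝ} (h : |θ| ≤ 1) : |Real.sin θ - θ| ≤ |θ| ^ 3 / 4 := by
  have key : ∀ x : ℝ, 0 ≤ x → x ≤ 1 → |Real.sin x - x| ≤ x ^ 3 / 4 := by
    intro x h0 h1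
    rcases h0.eq_or_lt with h2 | h2
    · rw [← h2]; simp
    · have a1 := Real.sin_lt h2
      have a2 := Real.sin_gt_sub_cube h2
      have a3 : 0 ≤ x ^ 3 := by positivity
      rw [abs_le]
      constructor <;> linarith
  rcases le_total 0 θ with h0 | h0
  · rw [abs_of_nonneg h0] at h ⊢
    exact key θ h0 h
  · have h1 : |θ| = -θ := abs_of_nonpos h0
    rw [h1] at h ⊢
    have := key (-θ) (by linarith) h
    rw [Real.sin_neg] at this
    rw [show Real.sin θ - θ = -(-Real.sin θ - -θ) by ring, abs_neg]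
    exact this

/-- lower bounds of the real part of the model integrand -/
lemma re_sad_ge {n θ : ℝ} (hn : 10000 ≤ n) (h : |θ| * Real.sqrt n ≤ 5) :
    0 ≤ (sad n θ).re ∧ (|θ| * Real.sqrt n ≤ 1 → 1 / 3 ≤ (sad n θ).re) := by
  have hs : 100 ≤ Real.sqrt n := by
    rw [show (100 : ℝ) = Real.sqrt (100 ^ 2) by rw [Real.sqrt_sq (by norm_num)]]
    exact Real.sqrt_le_sqrt (by linarith)
  have hsn : Real.sqrt n * Real.sqrt n = n := Real.mul_self_sqrt (by linarith)
  set s := Real.sqrt n with hsdef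
  have h0 := abs_nonneg θ
  have hθ1 : |θ| ≤ 1 / 20 := by
    by_contra hcon
    push Not at hcon
    nlinarith
  have h1 := sin_sub_abs (show |θ| ≤ 1 by linarith)
  set x := |θ| * s with hx
  have hx0 : 0 ≤ x := by positivity
  have hcub : n * |θ| ^ 3 = x ^ 2 * |θ| := by rw [hx, ← hsn]; ring
  have h2 : |2 * n * (Real.sin θ - θ)| ≤ x ^ 2 * |θ| / 2 := by
    rw [abs_mul, abs_of_pos (show (0 : ℝ) < 2 * n by linarith), ← hcub]
    have := mul_le_mul_of_nonneg_left h1 (show (0 : ℝ) ≤ 2 * n by linarith)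
    linarith
  rw [re_sad]
  have hexp := Real.exp_pos (2 * n * (Real.cos θ - 1))
  constructor
  · refine mul_nonneg hexp.le (Real.cos_nonneg_of_mem_Icc ?_)
    have h3 : x ^ 2 * |θ| / 2 ≤ 1 := by
      have : x ^ 2 ≤ 25 := by nlinarith
      nlinarith
    have h4 := abs_le.1 (h2.trans h3)
    have := Real.pi_gt_three
    constructor <;> linarith [h4.1, h4.2]
  · intro hx1
    have h3 : |2 * n * (Real.sin θ - θ)| ≤ 1 / 40 := by
      refine h2.trans ?_
      have : x ^ 2 ≤ 1 := by nlinarith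
      nlinarith
    have h4 : 1 - (1 / 40) ^ 2 / 2 ≤ Real.cos (2 * n * (Real.sin θ - θ)) := by
      refine le_trans ?_ (Real.one_sub_sq_div_two_le_cos)
      have := sq_le_sq' (neg_le_of_abs_le h3) (le_of_abs_le h3)
      linarith
    have h5 : Real.exp (-1) ≤ Real.exp (2 * n * (Real.cos θ - 1)) := by
      refine Real.exp_le_exp.2 ?_
      have a1 := Real.one_sub_sq_div_two_le_cos (x := θ)
      have a2 : n * θ ^ 2 ≤ 1 := by
        have : n * θ ^ 2 = x ^ 2 := by rw [hx, mul_pow, sq_abs, ← hsn]; ring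
        rw [this]
        nlinarith
      have a3 := mul_le_mul_of_nonneg_left (show -(θ ^ 2 / 2) ≤ Real.cos θ - 1 by linarith)
        (show (0 : ℝ) ≤ 2 * n by linarith)
      linarith
    have h6 : (0.36 : ℝ) ≤ Real.exp (-1) := by
      rw [Real.exp_neg, le_inv_comm₀ (by norm_num) (Real.exp_pos 1)]
      have := Real.exp_one_lt_d9
      linarith
    calc (1 / 3 : ℝ) ≤ 0.36 * (1 - (1 / 40) ^ 2 / 2) := by norm_num
      _ ≤ _ := mul_le_mul (h6.trans h5) h4 (by norm_num) hexp.le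

lemma exp_m5 : Real.exp (-5) ≤ 1 / 100 := by
  rw [Real.exp_neg, inv_le_comm₀ (Real.exp_pos _) (by norm_num)]
  have h1 : (2.7 : ℝ) ≤ Real.exp 1 := by have := Real.exp_one_gt_d9; linarith
  have h2 : Real.exp 5 = Real.exp 1 ^ 5 := by rw [← Real.exp_nat_mul]; norm_num
  rw [h2]
  calc (1 / 100 : ℝ)⁻¹ ≤ 2.7 ^ 5 := by norm_num
    _ ≤ _ := pow_le_pow_left₀ (by norm_num) h1 5

/-- pointwise lower bound near the saddle -/
lemma near_ge {n θ η : ℝ} {z : ℂ} (hn : 10000 ≤ n) (hθ : |θ| ≤ Real.pi) (hη0 : 0 ≤ η)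
    (hη : η ≤ 1 / 1000)
    (hz : ‖z - sad n θ‖ ≤ Real.exp (-(2 / 5 * (n * θ ^ 2))) * (Real.exp (η * (n * θ ^ 2)) - 1)) :
    (if |θ| * Real.sqrt n ≤ 1 then (1 / 3 : ℝ) else 0) - 1 / 50 * Real.exp (-(1 / 5 * n) * θ ^ 2) ≤
      z.re := by
  set x := n * θ ^ 2 with hx
  have hx0 : 0 ≤ x := by positivity
  have e1 : Real.exp (η * x) - 1 ≤ η * x * Real.exp (η * x) := by
    have h1 := Real.one_sub_le_exp_neg (η * x)
    have h2 : Real.exp (-(η * x)) * Real.exp (η * x) = 1 := by
      rw [← Real.exp_add]; simp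
    have h3 := Real.exp_pos (η * x)
    nlinarith
  have e2 : x ≤ 10 * Real.exp (x / 10) := by
    have := Real.add_one_le_exp (x / 10)
    linarith
  have herr : ‖z - sad n θ‖ ≤ 1 / 100 * Real.exp (-(1 / 5 * x)) := by
    refine hz.trans ?_
    calc Real.exp (-(2 / 5 * x)) * (Real.exp (η * x) - 1)
        ≤ Real.exp (-(2 / 5 * x)) * (1 / 1000 * (10 * Real.exp (x / 10)) * Real.exp (x / 1000)) := by
          refine mul_le_mul_of_nonneg_left (e1.trans ?_) (Real.exp_pos _).le
          have h3 : Real.exp (η * x) ≤ Real.exp (x / 1000) := by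
            refine Real.exp_le_exp.2 ?_
            have := mul_le_mul_of_nonneg_right hη hx0
            linarith
          have h4 : η * x ≤ 1 / 1000 * (10 * Real.exp (x / 10)) :=
            mul_le_mul hη e2 hx0 (by norm_num)
          exact mul_le_mul h4 h3 (Real.exp_pos _).le (by positivity)
      _ = 1 / 100 * Real.exp (-(2 / 5 * x) + x / 10 + x / 1000) := by
          rw [Real.exp_add, Real.exp_add]; ring
      _ ≤ _ := by
          gcongr
          linarith
  have hre : (sad n θ).re - 1 / 100 * Real.exp (-(1 / 5 * x)) ≤ z.re := by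
    have h1 := (Complex.abs_re_le_norm (z - sad n θ)).trans herr
    rw [Complex.sub_re] at h1
    have := (abs_le.1 h1).1
    linarith
  have hxe : -(1 / 5 * n) * θ ^ 2 = -(1 / 5 * x) := by rw [hx]; ring
  rw [hxe]
  have hpos := Real.exp_pos (-(1 / 5 * x))
  rcases le_or_gt (|θ| * Real.sqrt n) 5 with h5 | h5
  · obtain ⟨g1, g2⟩ := re_sad_ge hn h5
    split_ifs with hif
    · have := g2 hif
      linarith
    · linarith
  · rw [if_neg (by linarith)]
    have h6 : 25 ≤ x := by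
      have hsq : (|θ| * Real.sqrt n) ^ 2 = x := by
        rw [mul_pow, sq_abs, Real.sq_sqrt (by linarith), hx]; ring
      rw [← hsq]
      nlinarith
    have h7 : ‖sad n θ‖ ≤ 1 / 100 * Real.exp (-(1 / 5 * x)) := by
      refine (norm_sad_le (by linarith) hθ).trans ?_
      rw [← hx]
      calc Real.exp (-(2 / 5 * x)) ≤ Real.exp (-5 + -(1 / 5 * x)) := by
            refine Real.exp_le_exp.2 ?_; linarith
        _ = Real.exp (-5) * Real.exp (-(1 / 5 * x)) := Real.exp_add _ _
        _ ≤ _ := by gcongr; exact exp_m5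
    have h8 := (abs_le.1 ((Complex.abs_re_le_norm (sad n θ)).trans h7)).1
    linarith

/-- **The integral is positive.** -/
theorem core_pos {n θ₁ η δ : ℝ} {f : ℝ → ℂ} (hf : Continuous f) (hn : 10000 ≤ n)
    (hη0 : 0 ≤ η) (hη : η ≤ 1 / 1000) (hθ₁ : 1 ≤ θ₁ * Real.sqrt n)
    (h1 : ∀ θ : ℝ, |θ| ≤ θ₁ → |θ| ≤ Real.pi / 2 →
      ‖f θ - sad n θ‖ ≤ Real.exp (-(2 / 5 * (n * θ ^ 2))) * (Real.exp (η * (n * θ ^ 2)) - 1))
    (hδ0 : 0 ≤ δ) (hδ : δ * Real.sqrt n ≤ 1 / 100)
    (h2 : ∀ θ : ℝ, θ₁ ≤ |θ| → |θ| ≤ Real.pi / 2 → ‖f θ‖ ≤ δ) :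
    0 < (∫ θ in (-(Real.pi / 2))..(Real.pi / 2), f θ).re := by
  have hn0 : 0 < n := by linarith
  have hs : 100 ≤ Real.sqrt n := by
    rw [show (100 : ℝ) = Real.sqrt (100 ^ 2) by rw [Real.sqrt_sq (by norm_num)]]
    exact Real.sqrt_le_sqrt (by linarith)
  have hsn : Real.sqrt n * Real.sqrt n = n := Real.mul_self_sqrt (by linarith)
  set s := Real.sqrt n with hsdef
  have hs0 : 0 < s := by linarith
  have hpi := Real.pi_gt_three
  have hpi2 := Real.pi_lt_d2
  set a : ℝ := 1 / s with ha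
  have ha0 : 0 < a := by positivity
  have ha1 : a ≤ 1 / 100 := by
    rw [ha]; exact one_div_le_one_div_of_le (by norm_num) hs
  have hab : -(Real.pi / 2) ≤ Real.pi / 2 := by linarith
  -- the lower bound
  set g : ℝ → ℝ := fun θ => (Icc (-a) a).indicator (fun _ => (1 / 3 : ℝ)) θ -
    1 / 50 * Real.exp (-(1 / 5 * n) * θ ^ 2) - δ with hg
  have hpt : ∀ θ ∈ Icc (-(Real.pi / 2)) (Real.pi / 2), g θ ≤ (f θ).re := by
    intro θ hθ
    have hab' : |θ| ≤ Real.pi / 2 := abs_le.2 hθ
    have hind : (Icc (-a) a).indicator (fun _ => (1 / 3 : ℝ)) θ =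
        if |θ| * s ≤ 1 then (1 / 3 : ℝ) else 0 := by
      rw [indicator_apply]
      congr 1
      rw [mem_Icc, ← abs_le, ha, le_div_iff₀ hs0]
    rw [hg]
    simp only
    rw [hind]
    rcases le_total |θ| θ₁ with h3 | h3
    · have := near_ge hn (hab'.trans (by linarith)) hη0 hη (h1 θ h3 hab')
      linarith
    · have h4 := (abs_le.1 ((Complex.abs_re_le_norm (f θ)).trans (h2 θ h3 hab'))).1
      have h5 := Real.exp_pos (-(1 / 5 * n) * θ ^ 2)
      rcases eq_or_lt_of_le h3 with h6 | h6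
      · have := near_ge hn (hab'.trans (by linarith)) hη0 hη (h1 θ h6.ge hab')
        linarith
      · rw [if_neg]
        · linarith
        · push Not
          calc 1 ≤ θ₁ * s := hθ₁
            _ < |θ| * s := by gcongr
  have hint1 : IntervalIntegrable (fun θ => (f θ).re) volume (-(Real.pi / 2)) (Real.pi / 2) :=
    (Complex.continuous_re.comp hf).intervalIntegrable _ _
  have hE : Continuous fun θ : ℝ => Real.exp (-(1 / 5 * n) * θ ^ 2) := by fun_prop
  have hI0 : Integrable ((Icc (-a) a).indicator (fun _ => (1 / 3 : ℝ))) volume := by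
    refine IntegrableOn.integrable_indicator ?_ measurableSet_Icc
    exact integrableOn_const (by simp) (by simp)
  have hint2 : IntervalIntegrable g volume (-(Real.pi / 2)) (Real.pi / 2) :=
    (hI0.intervalIntegrable.sub ((hE.const_mul _).intervalIntegrable _ _)).sub
      intervalIntegrable_const
  have hmono := intervalIntegral.integral_mono_on hab hint2 hint1 hpt
  have hre : (∫ θ in (-(Real.pi / 2))..(Real.pi / 2), f θ).re =
      ∫ θ in (-(Real.pi / 2))..(Real.pi / 2), (f θ).re := by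
    have := Complex.reCLM.intervalIntegral_comp_comm (hf.intervalIntegrable (-(Real.pi / 2))
      (Real.pi / 2)) (μ := volume)
    simpa using this.symm
  rw [hre]
  refine lt_of_lt_of_le ?_ hmono
  rw [hg]
  simp only
  rw [intervalIntegral.integral_sub (hI0.intervalIntegrable.sub
    ((hE.const_mul _).intervalIntegrable _ _)) intervalIntegrable_const,
    intervalIntegral.integral_sub hI0.intervalIntegrable ((hE.const_mul _).intervalIntegrable _ _),
    intervalIntegral.integral_const_mul, intervalIntegral.integral_const]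
  -- the indicator
  have i1 : ∫ θ in (-(Real.pi / 2))..(Real.pi / 2), (Icc (-a) a).indicator (fun _ => (1 / 3 : ℝ)) θ =
      2 / 3 * a := by
    rw [intervalIntegral.integral_of_le hab, integral_indicator measurableSet_Icc,
      Measure.restrict_restrict measurableSet_Icc]
    have : Icc (-a) a ∩ Ioc (-(Real.pi / 2)) (Real.pi / 2) = Icc (-a) a := by
      refine inter_eq_left.2 fun x hx => ?_
      exact ⟨by linarith [hx.1], by linarith [hx.2]⟩
    rw [this, setIntegral_const, Real.volume_real_Icc]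
    rw [max_eq_left (by linarith), smul_eq_mul]
    ring
  -- the Gaussian
  have i2 : ∫ θ in (-(Real.pi / 2))..(Real.pi / 2), Real.exp (-(1 / 5 * n) * θ ^ 2) ≤ 4 * a := by
    have hG : Integrable (fun θ : ℝ => Real.exp (-(1 / 5 * n) * θ ^ 2)) volume :=
      integrable_exp_neg_mul_sq (by positivity)
    have h3 : ∫ θ in (-(Real.pi / 2))..(Real.pi / 2), Real.exp (-(1 / 5 * n) * θ ^ 2) ≤
        ∫ θ : ℝ, Real.exp (-(1 / 5 * n) * θ ^ 2) := by
      rw [intervalIntegral.integral_of_le hab]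
      exact setIntegral_le_integral hG (Eventually.of_forall fun x => (Real.exp_pos _).le)
    rw [integral_gaussian] at h3
    refine h3.trans ?_
    rw [Real.sqrt_le_left (by positivity), ha, div_le_iff₀ (by positivity)]
    have : (4 * (1 / s)) ^ 2 * (1 / 5 * n) = 16 / 5 := by
      rw [← hsn]; field_simp; norm_num
    rw [this]
    linarith
  rw [i1, smul_eq_mul]
  have i3 : (Real.pi / 2 - -(Real.pi / 2)) * δ ≤ 32 / 1000 * a := by
    have h4 : δ ≤ 1 / 100 * a := by
      rw [ha, mul_one_div, le_div_iff₀ hs0]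
      exact hδ
    have h5 : (Real.pi / 2 - -(Real.pi / 2)) ≤ 3.2 := by linarith
    calc (Real.pi / 2 - -(Real.pi / 2)) * δ ≤ 3.2 * (1 / 100 * a) :=
          mul_le_mul h5 h4 hδ0 (by norm_num)
      _ = _ := by ring
  linarith

end

end Pool.Agent.Helper68.UL
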