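import Pool.Agent.Helper75.Xi.RegC1

set_option autoImplicit false
set_option maxHeartbeats 1000000

/-! The logarithmic derivative of the archimedean factor, uniformly. -/

open Complex Filter Topology Metric Set

namespace Pool.Agent.Helper68.UL

noncomputable section

lemma gam_anal {s : ℂ} (hs : 0 < s.re) : AnalyticAt ℂ Complex.Gamma s := by
  have h1 : DifferentiableOn ℂ Complex.Gamma {z : ℂ | 0 < z.re} := by
    intro z hz
    have hz' : 0 < z.re := hz
    refine (Complex.differentiableAt_Gamma z fun m h => ?_).differentiableWithinAt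
    have := congrArg Complex.re h
    simp at this
    have h3 : (0 : ℝ) ≤ (m : ℝ) := Nat.cast_nonneg m
    linarith
  exact h1.analyticAt ((isOpen_lt continuous_const continuous_re).mem_nhds hs)

/-- the digamma function for `Re s ≥ 1/4` -/
lemma dig_quarter : ∃ K : ℝ, 1 ≤ K ∧ ∀ s : ℂ, 1 / 4 ≤ s.re →
    ‖logDeriv Complex.Gamma s - Real.log ‖s‖‖ ≤ K := by
  obtain ⟨K, hK1, hK⟩ := Pool.Agent.Helper75.Xi.dig_right
  -- the compact part
  set Q : Set ℂ := {s : ℂ | 1 / 4 ≤ s.re} ∩ closedBall 0 1 with hQ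
  have hQc : IsCompact Q :=
    (isCompact_closedBall 0 1).inter_left (isClosed_le continuous_const continuous_re)
  have hcont : ContinuousOn (fun s : ℂ => ‖logDeriv Complex.Gamma s - Real.log ‖s‖‖) Q := by
    intro s hs
    have hs1 : 1 / 4 ≤ s.re := hs.1
    have h0 : 0 < s.re := by linarith
    have hne : s ≠ 0 := by
      rintro rfl
      simp at h0
    have h1 : ContinuousAt (logDeriv Complex.Gamma) s :=
      ((gam_anal h0).deriv.div (gam_anal h0) (Complex.Gamma_ne_zero_of_re_pos h0)).continuousAt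
    have h2 : ContinuousAt (fun s : ℂ => ((Real.log ‖s‖ : ℝ) : ℂ)) s :=
      Complex.continuous_ofReal.continuousAt.comp
        ((Real.continuousAt_log (norm_ne_zero_iff.2 hne)).comp continuous_norm.continuousAt)
    exact (h1.sub h2).norm.continuousWithinAt
  obtain ⟨M, hM⟩ := hQc.bddAbove_image hcont
  refine ⟨max K M, le_max_of_le_left hK1, fun s hs => ?_⟩
  rcases le_total 1 ‖s‖ with h1 | h1
  · exact (hK s (by linarith) h1).trans (le_max_left _ _)
  · exact (hM (mem_image_of_mem _ ⟨hs, by simpa using h1⟩)).trans (le_max_right _ _)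

lemma logDeriv_GammaR {s : ℂ} (hs : 0 < s.re) :
    logDeriv Gammaℝ s = -(Real.log Real.pi / 2 : ℝ) + 1 / 2 * logDeriv Complex.Gamma (s / 2) := by
  have hs2 : 0 < (s / 2).re := by
    rw [show s / 2 = ((1 / 2 : ℝ) : ℂ) * s by push_cast; ring, Complex.re_ofReal_mul]
    positivity
  have hpi : (Real.pi : ℂ) ≠ 0 := by exact_mod_cast Real.pi_ne_zero
  have e : Gammaℝ = fun s : ℂ => (Real.pi : ℂ) ^ (-s / 2) * Complex.Gamma (s / 2) := by
    funext s
    exact Complex.Gammaℝ_def s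
  have h1 : HasDerivAt (fun s : ℂ => (Real.pi : ℂ) ^ (-s / 2))
      ((Real.pi : ℂ) ^ (-s / 2) * Complex.log Real.pi * (-1 / 2)) s := by
    have h2 : HasDerivAt (fun s : ℂ => -s / 2) (-1 / 2) s := by
      simpa using ((hasDerivAt_id s).neg.div_const 2)
    exact h2.const_cpow (Or.inl hpi)
  have h3 : HasDerivAt (fun s : ℂ => Complex.Gamma (s / 2))
      (deriv Complex.Gamma (s / 2) * (1 / 2)) s := by
    have h4 : HasDerivAt (fun s : ℂ => s / 2) (1 / 2) s := by
      simpa using ((hasDerivAt_id s).div_const 2)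
    exact HasDerivAt.comp (h₂ := Complex.Gamma) s (gam_anal hs2).differentiableAt.hasDerivAt h4
  have hG := Complex.Gamma_ne_zero_of_re_pos hs2
  have hp : (Real.pi : ℂ) ^ (-s / 2) ≠ 0 := by
    rw [Ne, Complex.cpow_eq_zero_iff]
    exact fun h => hpi h.1
  have h5 : HasDerivAt (fun s : ℂ => (Real.pi : ℂ) ^ (-s / 2) * Complex.Gamma (s / 2))
      ((Real.pi : ℂ) ^ (-s / 2) * Complex.log Real.pi * (-1 / 2) * Complex.Gamma (s / 2) +
      (Real.pi : ℂ) ^ (-s / 2) * (deriv Complex.Gamma (s / 2) * (1 / 2))) s := h1.mul h3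
  rw [logDeriv_apply, logDeriv_apply, e, h5.deriv, ← Complex.ofReal_log Real.pi_pos.le]
  push_cast
  field_simp

/-- the logarithmic derivative of the archimedean factor for `Re s ≥ 1/2` -/
lemma digR : ∃ K : ℝ, 1 ≤ K ∧ ∀ s : ℂ, 1 / 2 ≤ s.re →
    ‖logDeriv Gammaℝ s - ((Real.log ‖s‖ / 2 : ℝ) : ℂ)‖ ≤ K := by
  obtain ⟨K, hK1, hK⟩ := dig_quarter
  have hpi := Real.pi_gt_three
  have hlp : 0 ≤ Real.log Real.pi := Real.log_nonneg (by linarith)
  refine ⟨K / 2 + Real.log Real.pi / 2 + Real.log 2 / 2 + 1, ?_, fun s hs => ?_⟩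
  · have := Real.log_nonneg (show (1 : ℝ) ≤ 2 by norm_num)
    linarith
  have hs2 : 1 / 4 ≤ (s / 2).re := by
    rw [show s / 2 = ((1 / 2 : ℝ) : ℂ) * s by push_cast; ring, Complex.re_ofReal_mul]
    linarith
  have h1 := hK (s / 2) hs2
  have hne : s ≠ 0 := by
    rintro rfl
    simp at hs
    norm_num at hs
  have hn2 : Real.log ‖s / 2‖ = Real.log ‖s‖ - Real.log 2 := by
    rw [norm_div, Real.log_div (norm_ne_zero_iff.2 hne) (by simp)]
    simp
  rw [logDeriv_GammaR (by linarith)]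
  have e : -((Real.log Real.pi / 2 : ℝ) : ℂ) + 1 / 2 * logDeriv Complex.Gamma (s / 2) -
      ((Real.log ‖s‖ / 2 : ℝ) : ℂ) =
      1 / 2 * (logDeriv Complex.Gamma (s / 2) - Real.log ‖s / 2‖) -
        ((Real.log Real.pi / 2 + Real.log 2 / 2 : ℝ) : ℂ) := by
    rw [hn2]
    push_cast
    ring
  rw [e]
  refine (norm_sub_le _ _).trans ?_
  rw [norm_mul, Complex.norm_real, Real.norm_of_nonneg (by
    have := Real.log_nonneg (show (1 : ℝ) ≤ 2 by norm_num)
    positivity)]
  have h2 : ‖(1 / 2 : ℂ)‖ = 1 / 2 := by simp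
  rw [h2]
  linarith

end

end Pool.Agent.Helper68.UL
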