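import Pool.Agent.Helper40.HW.Nf

set_option autoImplicit false
set_option maxHeartbeats 1000000

/-! Bounds of Dedekind zeta functions in terms of the degree only. -/

open NumberField Complex Filter Topology Ideal

namespace Pool.Agent.Helper68.UL

open Pool.Agent.Y773 Pool.Agent.Y772.DK
open Pool.Agent.Y772.NZ (one one_ne one_norm LI_one)

noncomputable section

/-- `-ζ'/ζ` at the real point `x` -/
def SL (x : ℝ) : ℝ := ∑' n : ℕ, ArithmeticFunction.vonMangoldt n * (n : ℝ) ^ (-x)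

lemma SL_summable {x : ℝ} (hx : 1 < x) :
    Summable (fun n : ℕ => ArithmeticFunction.vonMangoldt n * (n : ℝ) ^ (-x)) := by
  have h1 := (ArithmeticFunction.LSeriesSummable_vonMangoldt
    (s := (x : ℂ)) (by rw [ofReal_re]; exact hx)).norm
  refine h1.congr fun n => ?_
  rw [LSeries.norm_term_eq]
  rcases eq_or_ne n 0 with rfl | hn
  · simp
  · rw [if_neg hn, Complex.norm_real, Real.norm_of_nonneg ArithmeticFunction.vonMangoldt_nonneg,
      Complex.ofReal_re, Real.rpow_neg (Nat.cast_nonneg n), div_eq_mul_inv]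

variable (K : Type) [Field K] [NumberField K]

lemma LA_bound {x : ℝ} (hx : 1 < x) {s : ℂ} (hs : x ≤ s.re) :
    ‖LA (ee (one K)) s‖ ≤ 2 * (Module.finrank ℚ K * SL x) := by
  set ψ := one K with hψdef
  have hψ : ∀ 𝔞, ‖ψ 𝔞‖ ≤ 1 := one_norm K
  have hx' : 1 < (x : ℂ).re := by rwa [ofReal_re]
  -- the real series over the ideals
  set f : Ideal (𝓞 K) → ℂ := fun 𝔞 => (VM 𝔞 : ℂ) * ψ 𝔞 * ((absNorm 𝔞 : ℕ) : ℂ) ^ (-(x : ℂ)) with hf
  have hfr : ∀ 𝔞, f 𝔞 = ((‖f 𝔞‖ : ℝ) : ℂ) := by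
    intro 𝔞
    rw [hf]
    simp only
    by_cases h : 𝔞 = 0
    · rw [h, map_zero]; simp
    · have h1 : ψ 𝔞 = 1 := one_ne K h
      have h2 : ((absNorm 𝔞 : ℕ) : ℂ) ^ (-(x : ℂ)) = (((absNorm 𝔞 : ℝ) ^ (-x) : ℝ) : ℂ) := by
        rw [Complex.ofReal_cpow (Nat.cast_nonneg _)]
        push_cast
        rfl
      rw [h1, mul_one, h2, ← Complex.ofReal_mul, Complex.norm_real, Real.norm_of_nonneg]
      exact mul_nonneg (VM_nonneg 𝔞) (Real.rpow_nonneg (Nat.cast_nonneg _) _)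
  have hsum : HasSum f (-(deriv (LA (ee ψ)) (x : ℂ))) := D_hasSum ψ hψ hx'
  have hsumr : HasSum (fun 𝔞 => ‖f 𝔞‖) (-(deriv (LA (ee ψ)) (x : ℂ))).re := by
    have h1 := Complex.hasSum_re hsum
    refine h1.congr_fun fun 𝔞 => ?_
    rw [hfr 𝔞, Complex.ofReal_re, Complex.norm_real, norm_norm]
  have hval : (-(deriv (LA (ee ψ)) (x : ℂ))).re ≤ Module.finrank ℚ K * SL x := by
    refine (Complex.re_le_norm _).trans ?_
    rw [D_eq ψ hψ hx', neg_neg]
    refine tsum_of_norm_bounded (((SL_summable hx).hasSum).mul_left _) fun n => ?_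
    rw [norm_mul, norm_mul, Complex.norm_real, Real.norm_of_nonneg
      ArithmeticFunction.vonMangoldt_nonneg, mul_assoc]
    refine mul_le_mul (norm_cc_le ψ hψ n) ?_ (by positivity) (Nat.cast_nonneg _)
    rcases Nat.eq_zero_or_pos n with rfl | hn
    · simp
    · rw [Complex.norm_natCast_cpow_of_pos hn, neg_re, ofReal_re]
  -- comparison
  have hlog2 : (1 / 2 : ℝ) ≤ Real.log 2 := by have := Real.log_two_gt_d9; linarith
  have hterm : ∀ 𝔞 : Ideal (𝓞 K), ‖ee ψ 𝔞 * ((absNorm 𝔞 : ℕ) : ℂ) ^ (-s)‖ ≤ 2 * ‖f 𝔞‖ := by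
    intro 𝔞
    by_cases h : 𝔞 = 0
    · rw [h, ee_zero, zero_mul, norm_zero]
      positivity
    have hpos := absNorm_pos' h
    have e1 : ‖f 𝔞‖ = VM 𝔞 * ‖ψ 𝔞‖ * (absNorm 𝔞 : ℝ) ^ (-x) := by
      rw [hf]
      simp only
      rw [norm_mul, norm_mul, Complex.norm_real, Real.norm_of_nonneg (VM_nonneg 𝔞),
        Complex.norm_natCast_cpow_of_pos hpos, neg_re, ofReal_re]
    have e2 : ‖ee ψ 𝔞 * ((absNorm 𝔞 : ℕ) : ℂ) ^ (-s)‖ =
        VM 𝔞 / Real.log (absNorm 𝔞) * ‖ψ 𝔞‖ * (absNorm 𝔞 : ℝ) ^ (-s.re) := by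
      unfold Pool.Agent.Y772.DK.ee
      rw [norm_mul, norm_mul, Complex.norm_real, Real.norm_of_nonneg
        (div_nonneg (VM_nonneg _) (Real.log_natCast_nonneg _)),
        Complex.norm_natCast_cpow_of_pos hpos, neg_re]
    rw [e1, e2]
    have h1 : VM 𝔞 / Real.log (absNorm 𝔞) ≤ 2 * VM 𝔞 := by
      rcases Nat.lt_or_ge (absNorm 𝔞) 2 with h2 | h2
      · have h3 : absNorm 𝔞 = 1 := by omega
        rw [h3, Nat.cast_one, Real.log_one, div_zero]
        have := VM_nonneg 𝔞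
        linarith
      · have h3 : Real.log 2 ≤ Real.log (absNorm 𝔞) :=
          Real.log_le_log (by norm_num) (by exact_mod_cast h2)
        rw [div_le_iff₀ (by linarith)]
        have := VM_nonneg 𝔞
        nlinarith
    have h4 : (absNorm 𝔞 : ℝ) ^ (-s.re) ≤ (absNorm 𝔞 : ℝ) ^ (-x) :=
      Real.rpow_le_rpow_of_exponent_le (by exact_mod_cast hpos) (by linarith)
    have h5 := VM_nonneg 𝔞
    calc VM 𝔞 / Real.log (absNorm 𝔞) * ‖ψ 𝔞‖ * (absNorm 𝔞 : ℝ) ^ (-s.re)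
        ≤ 2 * VM 𝔞 * ‖ψ 𝔞‖ * (absNorm 𝔞 : ℝ) ^ (-x) := by
          gcongr
      _ = _ := by ring
  have h6 := tsum_of_norm_bounded (hsumr.mul_left 2) hterm
  exact h6.trans (mul_le_mul_of_nonneg_left hval (by norm_num))

/-- bounds of the Dedekind zeta function in terms of the degree only -/
theorem dz_bound {x : ℝ} (hx : 1 < x) {s : ℂ} (hs : x ≤ s.re) :
    (Real.exp (2 * (Module.finrank ℚ K * SL x)))⁻¹ ≤ ‖dedekindZeta K s‖ ∧
      ‖dedekindZeta K s‖ ≤ Real.exp (2 * (Module.finrank ℚ K * SL x)) := by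
  have h1 := LA_bound K hx hs
  have hs1 : 1 < s.re := by linarith
  rw [← LI_one K hs1, LI_eq_exp (one K) (one_norm K) hs1, Complex.norm_exp, ← Real.exp_neg]
  have h2 := abs_le.1 ((Complex.abs_re_le_norm _).trans h1)
  exact ⟨Real.exp_le_exp.2 h2.1, Real.exp_le_exp.2 h2.2⟩

end

end Pool.Agent.Helper68.UL
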