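import Pool.Agent.Helper68.UL.Eul
import Pool.Agent.Helper68.UL.NfB

set_option autoImplicit false
set_option maxHeartbeats 1000000

/-! The completed Dedekind zeta function in the class of completed L-functions. -/

open NumberField Complex Filter Topology

namespace Pool.Agent.Helper68.UL

noncomputable section

/-- the shifts of the Gamma factors of a number field -/
def muK (r m : ℕ) (j : Fin m) : ℝ := if (j : ℕ) < r then 0 else 1

lemma prod_muK {r1 r2 m : ℕ} (hm : r1 + 2 * r2 = m) (s : ℂ) :
    ∏ j, Gammaℝ (s + muK (r1 + r2) m j) = Gammaℝ s ^ r1 * Gammaℂ s ^ r2 := by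
  classical
  have h1 : ∏ j : Fin m, Gammaℝ (s + muK (r1 + r2) m j) =
      ∏ j ∈ Finset.range m, (if j < r1 + r2 then Gammaℝ s else Gammaℝ (s + 1)) := by
    rw [Finset.prod_range]
    refine Finset.prod_congr rfl fun j _ => ?_
    unfold muK
    split_ifs <;> simp
  rw [h1, Finset.prod_ite, Finset.prod_const, Finset.prod_const]
  have h2 : (Finset.filter (fun x => x < r1 + r2) (Finset.range m)).card = r1 + r2 := by
    have : Finset.filter (fun x => x < r1 + r2) (Finset.range m) = Finset.range (r1 + r2) := by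
      ext x
      simp only [Finset.mem_filter, Finset.mem_range]
      omega
    rw [this, Finset.card_range]
  have h3 : (Finset.filter (fun x => ¬ x < r1 + r2) (Finset.range m)).card = r2 := by
    have h4 := Finset.card_filter_add_card_filter_not (s := Finset.range m) (fun x => x < r1 + r2)
    rw [h2, Finset.card_range] at h4
    omega
  rw [h2, h3, ← Gammaℝ_mul_Gammaℝ_add_one, mul_pow, pow_add]
  ring

variable (K : Type) [Field K] [NumberField K]

/-- the completed Dedekind zeta function, with uniform data -/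
theorem nf_CL {δ : ℝ} (hδ : 0 < δ) : ∃ F : ℂ → ℂ,
    CL (1 / 2 + δ) (Real.exp (2 * (Module.finrank ℚ K * SL (1 + δ)))) (1 / 2) |(discr K : ℝ)|
      (muK (InfinitePlace.nrRealPlaces K + InfinitePlace.nrComplexPlaces K) (Module.finrank ℚ K))
      (![0, 1] : Fin 2 → ℂ) 1 (dedekindZeta K) F ∧
    ∀ s : ℂ, 1 < s.re → F s = s * (s - 1) * ((|(discr K : ℝ)| : ℝ) : ℂ) ^ (s / 2) *
      Gammaℝ s ^ InfinitePlace.nrRealPlaces K * Gammaℂ s ^ InfinitePlace.nrComplexPlaces K *
      dedekindZeta K s := by
  obtain ⟨F, ⟨-, m', k', μ', ρ', A', g⟩, hval⟩ := Pool.Agent.Helper40.HW.nf_good K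
  refine ⟨F, ?_, hval⟩
  have hA : 1 ≤ |(discr K : ℝ)| := by
    have h1 : (1 : ℤ) ≤ |discr K| := Int.one_le_abs (discr_ne_zero K)
    calc (1 : ℝ) ≤ ((|discr K| : ℤ) : ℝ) := by exact_mod_cast h1
      _ = |(discr K : ℝ)| := by rw [Int.cast_abs]
  refine ⟨Module.finrank_pos, by linarith, Real.exp_pos _, hA, ?_, ?_, g.diff, g.fin, g.conj, ?_, ?_,
    g.fe, g.eps⟩
  · intro j
    unfold muK
    split_ifs <;> norm_num
  · intro i
    fin_cases i <;> simp
    all_goals linarith
  · intro s hs
    have hs1 : 1 < s.re := by linarith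
    rw [hval s hs1, prod_muK (InfinitePlace.card_add_two_mul_card_eq_rank K)]
    simp only [Fin.prod_univ_two, Matrix.cons_val_zero, Matrix.cons_val_one, sub_zero]
    ring
  · intro s hs
    exact dz_bound K (by linarith) (by linarith)

end

end Pool.Agent.Helper68.UL
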