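import Pool.Agent.Helper68.UL.LagT
import Pool.Agent.Helper68.UL.Dig

set_option autoImplicit false
set_option maxHeartbeats 1000000

/-! Completed L-functions belong to the abstract class, uniformly. -/

open Complex Filter Topology Metric Set
open scoped ComplexConjugate

namespace Pool.Agent.Helper68.UL

noncomputable section

/-- completed L-functions -/
structure CL {m k : ℕ} (β K c A : ℝ) (μ : Fin m → ℝ) (ρ : Fin k → ℂ) (ε : ℂ) (L F : ℂ → ℂ) :
    Prop where
  m0 : 0 < m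
  β1 : 1 / 2 ≤ β
  K0 : 0 < K
  A1 : 1 ≤ A
  μ0 : ∀ j, 0 < c + μ j
  ρ0 : ∀ i, (ρ i).re ≤ c + β
  ent : Differentiable ℂ F
  ord : ∃ (a : ℕ) (B : ℝ), ∀ s : ℂ, ‖F s‖ ≤ Real.exp (B * (1 + ‖s‖) ^ a)
  cj : ∀ s : ℂ, F (conj s) = conj (F s)
  val : ∀ s : ℂ, c + β < s.re →
    F s = (∏ i, (s - ρ i)) * ((A : ℂ) ^ (s / 2) * ∏ j, Gammaℝ (s + μ j)) * L s
  bd : ∀ s : ℂ, c + β < s.re → K⁻¹ ≤ ‖L s‖ ∧ ‖L s‖ ≤ K
  fe : ∀ s : ℂ, F (2 * c - s) = ε * F s
  sgn : ε = 1 ∨ ε = -1

/-- the comparison value -/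
def V {m : ℕ} (c A : ℝ) (μ : Fin m → ℝ) (z : ℂ) : ℝ :=
  Real.log A / 2 + ∑ j, Real.log ‖z + (c + μ j : ℝ)‖ / 2

/-- the factor of `F (c + z)` besides `L` -/
def Qf {m k : ℕ} (c A : ℝ) (μ : Fin m → ℝ) (ρ : Fin k → ℂ) (z : ℂ) : ℂ :=
  (∏ i, (z + (c - ρ i))) * (cexp (((Real.log A / 2 : ℝ) : ℂ) * (z + c)) *
    ∏ j, Gammaℝ (z + (c + μ j : ℝ)))

namespace CL

variable {m k : ℕ} {β K c A : ℝ} {μ : Fin m → ℝ} {ρ : Fin k → ℂ} {ε : ℂ} {L F : ℂ → ℂ}
variable (h : CL β K c A μ ρ ε L F)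
include h

lemma hpos {z : ℂ} (hz : β < z.re) (j : Fin m) : 1 / 2 < (z + (c + μ j : ℝ)).re := by
  have h1 := h.μ0 j
  have h2 := h.β1
  rw [add_re, ofReal_re]
  linarith

lemma Qf_facts {z : ℂ} (hz : β < z.re) : DifferentiableAt ℂ (Qf c A μ ρ) z ∧ Qf c A μ ρ z ≠ 0 ∧
    logDeriv (Qf c A μ ρ) z = (∑ i, 1 / (z + (c - ρ i))) + (((Real.log A / 2 : ℝ) : ℂ) +
      ∑ j, logDeriv Gammaℝ (z + (c + μ j : ℝ))) := by
  have hG : ∀ j, DifferentiableAt ℂ (fun w : ℂ => Gammaℝ (w + (c + μ j : ℝ))) z := by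
    intro j
    have h1 : DifferentiableAt ℂ Gammaℝ (z + (c + μ j : ℝ)) := by
      have h2 := h.hpos hz j
      have h3 : 0 < ((z + (c + μ j : ℝ)) / 2).re := by
        rw [show (z + (c + μ j : ℝ)) / 2 = ((1 / 2 : ℝ) : ℂ) * (z + (c + μ j : ℝ)) by push_cast; ring,
          Complex.re_ofReal_mul]
        linarith
      have e : Gammaℝ = fun s : ℂ => (Real.pi : ℂ) ^ (-s / 2) * Complex.Gamma (s / 2) := by
        funext s
        exact Complex.Gammaℝ_def s
      rw [e]
      refine DifferentiableAt.mul ?_ ?_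
      · refine DifferentiableAt.const_cpow (by fun_prop) (Or.inl ?_)
        exact_mod_cast Real.pi_ne_zero
      · exact DifferentiableAt.comp (g := Complex.Gamma) (f := fun s : ℂ => s / 2) _
          (gam_anal h3).differentiableAt (by fun_prop)
    exact DifferentiableAt.comp (g := Gammaℝ) (f := fun w : ℂ => w + (c + μ j : ℝ)) z h1 (by fun_prop)
  have hGn : ∀ j, Gammaℝ (z + (c + μ j : ℝ)) ≠ 0 := fun j =>
    Gammaℝ_ne_zero_of_re_pos (by linarith [h.hpos hz j])
  have hE : DifferentiableAt ℂ (fun w : ℂ => cexp (((Real.log A / 2 : ℝ) : ℂ) * (w + c))) z := by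
    fun_prop
  have hP : DifferentiableAt ℂ (fun w : ℂ => ∏ j, Gammaℝ (w + (c + μ j : ℝ))) z :=
    DifferentiableAt.fun_finsetProd fun j _ => hG j
  have hPn : ∏ j, Gammaℝ (z + (c + μ j : ℝ)) ≠ 0 := Finset.prod_ne_zero_iff.2 fun j _ => hGn j
  have hR : DifferentiableAt ℂ (fun w : ℂ => ∏ i, (w + (c - ρ i))) z := by fun_prop
  have hRn0 : ∀ i, z + (c - ρ i) ≠ 0 := by
    intro i h0
    have h1 := congrArg Complex.re h0
    rw [add_re, sub_re, ofReal_re, zero_re] at h1
    have := h.ρ0 i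
    linarith
  have hRn : ∏ i, (z + (c - ρ i)) ≠ 0 := Finset.prod_ne_zero_iff.2 fun i _ => hRn0 i
  refine ⟨hR.mul (hE.mul hP), mul_ne_zero hRn (mul_ne_zero (Complex.exp_ne_zero _) hPn), ?_⟩
  have e0 : Qf c A μ ρ = fun w => (∏ i, (w + (c - ρ i))) *
      ((fun w => cexp (((Real.log A / 2 : ℝ) : ℂ) * (w + c)) * ∏ j, Gammaℝ (w + (c + μ j : ℝ))) w) :=
    rfl
  rw [e0, logDeriv_mul (f := fun w : ℂ => ∏ i, (w + (c - ρ i)))
    (g := fun w => cexp (((Real.log A / 2 : ℝ) : ℂ) * (w + c)) * ∏ j, Gammaℝ (w + (c + μ j : ℝ)))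
    z hRn (mul_ne_zero (Complex.exp_ne_zero _) hPn) hR (hE.mul hP)]
  congr 1
  · rw [logDeriv_prod (f := fun i (w : ℂ) => w + (c - ρ i)) (fun i _ => hRn0 i)
      fun i _ => by fun_prop]
    refine Finset.sum_congr rfl fun i _ => ?_
    rw [logDeriv_apply]
    congr 1
    simp
  · rw [logDeriv_mul (f := fun w : ℂ => cexp (((Real.log A / 2 : ℝ) : ℂ) * (w + c)))
      (g := fun w => ∏ j, Gammaℝ (w + (c + μ j : ℝ))) z (Complex.exp_ne_zero _) hPn hE hP]
    congr 1
    · have h1 : HasDerivAt (fun w : ℂ => cexp (((Real.log A / 2 : ℝ) : ℂ) * (w + c)))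
          (cexp (((Real.log A / 2 : ℝ) : ℂ) * (z + c)) * ((Real.log A / 2 : ℝ) : ℂ)) z := by
        have h2 : HasDerivAt (fun w : ℂ => ((Real.log A / 2 : ℝ) : ℂ) * (w + c))
          ((Real.log A / 2 : ℝ) : ℂ) z := by
          simpa using ((hasDerivAt_id z).add_const (c : ℂ)).const_mul ((Real.log A / 2 : ℝ) : ℂ)
        exact h2.cexp
      rw [logDeriv_apply, h1.deriv, mul_div_cancel_left₀ _ (Complex.exp_ne_zero _)]
    · rw [logDeriv_prod (f := fun j (w : ℂ) => Gammaℝ (w + (c + μ j : ℝ))) (fun j _ => hGn j)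
        fun j _ => hG j]
      refine Finset.sum_congr rfl fun j _ => ?_
      rw [logDeriv_apply, logDeriv_apply, deriv_comp_add_const]

lemma eqQ {z : ℂ} (hz : β < z.re) : F (c + z) = Qf c A μ ρ z * L (c + z) := by
  have hA : 0 < A := by linarith [h.A1]
  have e1 : ∏ i, ((c : ℂ) + z - ρ i) = ∏ i, (z + (c - ρ i)) :=
    Finset.prod_congr rfl fun i _ => by ring
  have e2 : (A : ℂ) ^ (((c : ℂ) + z) / 2) = cexp (((Real.log A / 2 : ℝ) : ℂ) * (z + c)) := by
    rw [Complex.cpow_def_of_ne_zero (by exact_mod_cast hA.ne'), ← Complex.ofReal_log hA.le]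
    congr 1
    push_cast
    ring
  have e3 : ∏ j, Gammaℝ ((c : ℂ) + z + μ j) = ∏ j, Gammaℝ (z + (c + μ j : ℝ)) :=
    Finset.prod_congr rfl fun j _ => by
      congr 1
      push_cast
      ring
  rw [h.val (c + z) (by rw [add_re, ofReal_re]; linarith), Qf, e1, e2, e3]

/-- the quotient `F / Qf` -/
lemma E_facts {z : ℂ} (hz : β < z.re) :
    DifferentiableAt ℂ (fun w => F (c + w) / Qf c A μ ρ w) z ∧
    K⁻¹ ≤ ‖F (c + z) / Qf c A μ ρ z‖ ∧ ‖F (c + z) / Qf c A μ ρ z‖ ≤ K := by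
  obtain ⟨h1, h2, -⟩ := h.Qf_facts hz
  have h3 : F (c + z) / Qf c A μ ρ z = L (c + z) := by
    rw [h.eqQ hz, mul_div_cancel_left₀ _ h2]
  refine ⟨?_, ?_⟩
  · exact (h.ent.comp (by fun_prop : Differentiable ℂ fun w : ℂ => (c : ℂ) + w) z).div h1 h2
  · rw [h3]
    exact h.bd _ (by rw [add_re, ofReal_re]; linarith)

/-- the logarithmic derivative of `F (c + z)` -/
lemma ld_bound {δ KR : ℝ} (hδ : 0 < δ) (hKR : ∀ s : ℂ, 1 / 2 ≤ s.re →
    ‖logDeriv Gammaℝ s - ((Real.log ‖s‖ / 2 : ℝ) : ℂ)‖ ≤ KR) {z : ℂ} (hz : β + δ ≤ z.re) :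
    F (c + z) ≠ 0 ∧
    ‖logDeriv (fun w => F (c + w)) z - V c A μ z‖ ≤ k / δ + m * KR + 2 * K ^ 2 / δ := by
  have hz' : β < z.re := by linarith
  obtain ⟨q1, q2, q3⟩ := h.Qf_facts hz'
  obtain ⟨e1, e2, e3⟩ := h.E_facts hz'
  have hK0 := h.K0
  set E : ℂ → ℂ := fun w => F (c + w) / Qf c A μ ρ w with hE
  have hEn : E z ≠ 0 := by
    intro h0
    have : ‖F (c + z) / Qf c A μ ρ z‖ = 0 := by
      have : F (c + z) / Qf c A μ ρ z = 0 := h0
      rw [this, norm_zero]
    rw [this] at e2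
    have := inv_pos.2 hK0
    linarith
  have hF : F (c + z) ≠ 0 := by
    intro h0
    apply hEn
    rw [hE]
    simp only
    rw [h0, zero_div]
  refine ⟨hF, ?_⟩
  -- `F (c + w) = Qf w * E w` near `z`
  have hev : (fun w => F (c + w)) =ᶠ[𝓝 z] fun w => Qf c A μ ρ w * E w := by
    have ho : IsOpen {w : ℂ | β < w.re} := isOpen_lt continuous_const continuous_re
    filter_upwards [ho.mem_nhds hz'] with w hw
    rw [hE]
    simp only
    rw [mul_div_cancel₀ _ (h.Qf_facts hw).2.1]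
  have hld : logDeriv (fun w => F (c + w)) z = logDeriv (Qf c A μ ρ) z + logDeriv E z := by
    rw [logDeriv_apply, hev.deriv_eq, hev.eq_of_nhds]
    have := logDeriv_mul (f := Qf c A μ ρ) (g := E) z q2 hEn q1 e1
    rw [logDeriv_apply] at this
    exact this
  -- the quotient
  have hEld : ‖logDeriv E z‖ ≤ 2 * K ^ 2 / δ := by
    have hder : ‖deriv E z‖ ≤ K / (δ / 2) := by
      refine Complex.norm_deriv_le_of_forall_mem_sphere_norm_le (by linarith) ?_ ?_
      · refine DifferentiableOn.diffContOnCl ?_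
        rw [closure_ball z (by linarith : δ / 2 ≠ 0)]
        intro w hw
        have hw' : β < w.re := by
          have h1 := Complex.abs_re_le_norm (w - z)
          rw [mem_closedBall, dist_eq_norm] at hw
          have h2 := (abs_le.1 (h1.trans hw)).1
          rw [sub_re] at h2
          linarith
        exact (h.E_facts hw').1.differentiableWithinAt
      · intro w hw
        have hw' : β < w.re := by
          have h1 := Complex.abs_re_le_norm (w - z)
          rw [mem_sphere, dist_eq_norm] at hw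
          have h2 := (abs_le.1 (h1.trans hw.le)).1
          rw [sub_re] at h2
          linarith
        exact (h.E_facts hw').2.2
    rw [logDeriv_apply, norm_div]
    have hEp : 0 < ‖E z‖ := norm_pos_iff.2 hEn
    rw [div_le_iff₀ hEp]
    calc ‖deriv E z‖ ≤ K / (δ / 2) := hder
      _ = 2 * K ^ 2 / δ * K⁻¹ := by field_simp
      _ ≤ 2 * K ^ 2 / δ * ‖E z‖ := mul_le_mul_of_nonneg_left e2 (by positivity)
  -- the factors
  have hsum : logDeriv (Qf c A μ ρ) z - V c A μ z = (∑ i, 1 / (z + (c - ρ i))) +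
      ∑ j, (logDeriv Gammaℝ (z + (c + μ j : ℝ)) -
        ((Real.log ‖z + (c + μ j : ℝ)‖ / 2 : ℝ) : ℂ)) := by
    rw [q3, V, Finset.sum_sub_distrib]
    push_cast
    ring
  have hQ : ‖logDeriv (Qf c A μ ρ) z - V c A μ z‖ ≤ k / δ + m * KR := by
    rw [hsum]
    refine (norm_add_le _ _).trans (add_le_add ?_ ?_)
    · refine (norm_sum_le _ _).trans ?_
      calc ∑ i, ‖1 / (z + (c - ρ i))‖ ≤ ∑ _i : Fin k, 1 / δ := Finset.sum_le_sum fun i _ => by
            rw [norm_div, norm_one]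
            refine one_div_le_one_div_of_le hδ ?_
            refine le_trans ?_ (Complex.re_le_norm _)
            rw [add_re, sub_re, ofReal_re]
            have := h.ρ0 i
            linarith
        _ = k / δ := by simp [div_eq_mul_inv]
    · refine (norm_sum_le _ _).trans ?_
      calc ∑ j, ‖logDeriv Gammaℝ (z + (c + μ j : ℝ)) -
            ((Real.log ‖z + (c + μ j : ℝ)‖ / 2 : ℝ) : ℂ)‖ ≤ ∑ _j : Fin m, KR :=
            Finset.sum_le_sum fun j _ => hKR _ (h.hpos hz' j).le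
        _ = m * KR := by simp
  rw [hld, show logDeriv (Qf c A μ ρ) z + logDeriv E z - V c A μ z =
    (logDeriv (Qf c A μ ρ) z - V c A μ z) + logDeriv E z by ring]
  exact (norm_add_le _ _).trans (add_le_add hQ hEld)

lemma V_low {z : ℂ} (hz : 1 / 2 ≤ z.re) : 1 / 2 * Real.log z.re - m ≤ V c A μ z := by
  have hlogA : 0 ≤ Real.log A := Real.log_nonneg h.A1
  have h0 : 0 < z.re := by linarith
  have hterm : ∀ j : Fin m, Real.log z.re / 2 ≤ Real.log ‖z + (c + μ j : ℝ)‖ / 2 := by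
    intro j
    have h1 : z.re ≤ ‖z + (c + μ j : ℝ)‖ := by
      refine le_trans ?_ (Complex.re_le_norm _)
      rw [add_re, ofReal_re]
      linarith [h.μ0 j]
    have := Real.log_le_log h0 h1
    linarith
  have hsum : (m : ℝ) * (Real.log z.re / 2) ≤ ∑ j, Real.log ‖z + (c + μ j : ℝ)‖ / 2 := by
    calc (m : ℝ) * (Real.log z.re / 2) = ∑ _j : Fin m, Real.log z.re / 2 := by simp
      _ ≤ _ := Finset.sum_le_sum fun j _ => hterm j
  have hl : -1 ≤ Real.log z.re := by
    have h3 : Real.log (1 / 2) ≤ Real.log z.re := Real.log_le_log (by norm_num) hz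
    have h4 : Real.log (1 / 2) = -Real.log 2 := by rw [one_div, Real.log_inv]
    have := Real.log_two_lt_d9
    linarith
  have hm : (1 : ℝ) ≤ m := by exact_mod_cast h.m0
  unfold V
  nlinarith

lemma V_var {z w : ℂ} {a : ℝ} (ha0 : 0 ≤ a) (ha : a ≤ 1 / 2) (hz : 1 / 2 ≤ z.re)
    (hw : ‖w - z‖ ≤ a * z.re) : |V c A μ w - V c A μ z| ≤ m := by
  have hterm : ∀ j : Fin m, |Real.log ‖w + (c + μ j : ℝ)‖ / 2 - Real.log ‖z + (c + μ j : ℝ)‖ / 2| ≤
      1 := by
    intro j
    set x := ‖z + (c + μ j : ℝ)‖ with hx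
    set y := ‖w + (c + μ j : ℝ)‖ with hy
    have hzx : z.re ≤ x := by
      refine le_trans ?_ (Complex.re_le_norm _)
      rw [add_re, ofReal_re]
      linarith [h.μ0 j]
    have hx0 : 0 < x := by linarith
    have hxy : |y - x| ≤ 1 / 2 * x := by
      have h1 := abs_norm_sub_norm_le (w + (c + μ j : ℝ)) (z + (c + μ j : ℝ))
      rw [show w + ((c + μ j : ℝ) : ℂ) - (z + ((c + μ j : ℝ) : ℂ)) = w - z by ring] at h1
      refine h1.trans (hw.trans ?_)
      calc a * z.re ≤ 1 / 2 * z.re := by gcongr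
        _ ≤ _ := by linarith
    obtain ⟨g1, g2⟩ := abs_le.1 hxy
    have hy0 : 0 < y := by linarith
    have l1 : Real.log y ≤ Real.log x + 1 := by
      have : Real.log y ≤ Real.log (Real.exp 1 * x) := by
        refine Real.log_le_log hy0 ?_
        have := Real.exp_one_gt_d9
        nlinarith
      rwa [Real.log_mul (Real.exp_pos 1).ne' hx0.ne', Real.log_exp, add_comm] at this
    have l2 : Real.log x ≤ Real.log y + 1 := by
      have : Real.log x ≤ Real.log (Real.exp 1 * y) := by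
        refine Real.log_le_log hx0 ?_
        have := Real.exp_one_gt_d9
        nlinarith
      rwa [Real.log_mul (Real.exp_pos 1).ne' hy0.ne', Real.log_exp, add_comm] at this
    rw [abs_le]
    constructor <;> linarith
  have e : V c A μ w - V c A μ z =
      ∑ j, (Real.log ‖w + (c + μ j : ℝ)‖ / 2 - Real.log ‖z + (c + μ j : ℝ)‖ / 2) := by
    unfold V
    rw [Finset.sum_sub_distrib]
    ring
  rw [e]
  refine (Finset.abs_sum_le_sum_abs _ _).trans ?_
  calc _ ≤ ∑ _j : Fin m, (1 : ℝ) := Finset.sum_le_sum fun j _ => hterm j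
    _ = m := by simp

end CL

/-- the analytic conductor at height `t` -/
def cond {m : ℕ} (c A : ℝ) (μ : Fin m → ℝ) (t : ℝ) : ℝ := A * ∏ j, (c + μ j + |t| + 2)

/-- **Completed L-functions belong to the abstract class.** -/
theorem CL.cls (m k : ℕ) {β K δ : ℝ} (hβ : 1 / 2 ≤ β) (hδ : 0 < δ) (hδ1 : δ ≤ 1) :
    ∃ C : ℝ, 1 ≤ C ∧ ∀ (c A : ℝ) (μ : Fin m → ℝ) (ρ : Fin k → ℂ) (ε : ℂ) (L F : ℂ → ℂ),
      CL β K c A μ ρ ε L F → Cls (β + δ / 2) C (fun z => F (c + z)) ∧
        ∀ t : ℝ, (logDeriv (fun z => F (c + z)) ((β + δ : ℝ) + t * I)).re ≤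
          1 / 2 * Real.log (cond c A μ t) + C := by
  obtain ⟨KR, hKR1, hKR⟩ := digR
  set C2 : ℝ := k / (δ / 4) + m * KR + 2 * K ^ 2 / (δ / 4) with hC2
  have hC20 : 0 ≤ C2 := by
    have : 0 ≤ KR := by linarith
    positivity
  set b0 : ℝ := β + δ / 4 with hb0
  set b : ℝ := β + δ / 2 with hb
  set a : ℝ := (b - b0) / b with ha
  have hbpos : 0 < b := by linarith
  have ha0 : 0 < a := by
    rw [ha]
    exact div_pos (by linarith) hbpos
  have ha1 : a ≤ 1 / 2 := by
    rw [ha, div_le_iff₀ hbpos]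
    linarith
  set C : ℝ := max (C2 + m + 1 + (C2 + m) / a) (C2 + m * Real.log (β + δ + 1)) with hC
  have hCa : C2 + m + 1 + (C2 + m) / a ≤ C := le_max_left _ _
  have hCb : C2 + m * Real.log (β + δ + 1) ≤ C := le_max_right _ _
  have hm0 : (0 : ℝ) ≤ m := Nat.cast_nonneg m
  have hq0 : 0 ≤ (C2 + m) / a := by positivity
  refine ⟨C, by linarith, ?_⟩
  intro c A μ ρ ε L F h
  have hld : ∀ z : ℂ, b0 ≤ z.re → F (c + z) ≠ 0 ∧
      ‖logDeriv (fun w => F (c + w)) z - V c A μ z‖ ≤ C2 := fun z hz =>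
    h.ld_bound (by linarith) hKR hz
  have hFd : Differentiable ℂ (fun w => F (c + w)) := h.ent.comp (by fun_prop)
  refine ⟨⟨by linarith, by linarith, hFd, ?_, ?_, ?_, ?_, ?_, ?_, ?_⟩, ?_⟩
  · intro z
    rw [← h.cj, map_add, Complex.conj_ofReal]
  · have e : ∀ z : ℂ, F (c + -z) = ε * F (c + z) := by
      intro z
      rw [← h.fe]
      congr 1
      ring
    rcases h.sgn with h1 | h1
    · left; intro z; rw [e, h1, one_mul]
    · right; intro z; rw [e, h1, neg_one_mul]
  · obtain ⟨n, B, hB⟩ := h.ord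
    refine ⟨n, max B 0 * (1 + |c| + b) ^ n, fun z hz => (hB (c + z)).trans (Real.exp_le_exp.2 ?_)⟩
    have h1 : 1 + ‖(c : ℂ) + z‖ ≤ (1 + |c| + b) * (1 + |z.im|) := by
      have h2 : ‖(c : ℂ) + z‖ ≤ |c| + ‖z‖ := by
        refine (norm_add_le _ _).trans ?_
        rw [Complex.norm_real, Real.norm_eq_abs]
      have h3 := Complex.norm_le_abs_re_add_abs_im z
      have h4 := abs_nonneg z.im
      have h5 := abs_nonneg c
      nlinarith [mul_nonneg h5 h4, mul_nonneg hbpos.le h4]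
    calc B * (1 + ‖(c : ℂ) + z‖) ^ n ≤ max B 0 * ((1 + |c| + b) * (1 + |z.im|)) ^ n := by
          have h6 : 0 ≤ 1 + ‖(c : ℂ) + z‖ := by positivity
          calc B * (1 + ‖(c : ℂ) + z‖) ^ n ≤ max B 0 * (1 + ‖(c : ℂ) + z‖) ^ n := by
                gcongr; exact le_max_left _ _
            _ ≤ _ := by gcongr
      _ = _ := by rw [mul_pow]; ring
  · intro z hz
    exact (hld z (by linarith)).1
  · intro z hz
    have h1 := (hld z (by linarith)).2
    have h2 := (Complex.abs_im_le_norm _).trans h1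
    rw [sub_im, ofReal_im, sub_zero] at h2
    linarith
  · intro z hz
    have h1 := (hld z (by linarith)).2
    have h2 := (abs_le.1 ((Complex.abs_re_le_norm _).trans h1)).1
    rw [sub_re, ofReal_re] at h2
    have h3 := h.V_low (z := z) (by linarith)
    linarith
  · intro z hz
    have hz0 : 0 < z.re := by linarith
    have har : 0 < a * z.re := by positivity
    have hball : ∀ w : ℂ, ‖w - z‖ ≤ a * z.re → b0 ≤ w.re := by
      intro w hw
      have h1 := (abs_le.1 ((Complex.abs_re_le_norm (w - z)).trans hw)).1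
      rw [sub_re] at h1
      have h2 : b0 = b - a * b := by rw [ha]; field_simp; ring
      have h3 : 0 ≤ (1 - a) * (z.re - b) := mul_nonneg (by linarith) (by linarith)
      nlinarith
    have hdiff : ∀ w : ℂ, b0 ≤ w.re → DifferentiableAt ℂ (logDeriv fun w => F (c + w)) w := by
      intro w hw
      exact ((hFd.analyticAt w).deriv.div (hFd.analyticAt w) (hld w hw).1).differentiableAt
    have h1 : ‖deriv (fun w => logDeriv (fun w => F (c + w)) w - V c A μ z) z‖ ≤
        (C2 + m) / (a * z.re) := by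
      refine Complex.norm_deriv_le_of_forall_mem_sphere_norm_le har ?_ ?_
      · refine DifferentiableOn.diffContOnCl ?_
        rw [closure_ball z har.ne']
        intro w hw
        rw [mem_closedBall, dist_eq_norm] at hw
        exact ((hdiff w (hball w hw)).sub_const _).differentiableWithinAt
      · intro w hw
        rw [mem_sphere, dist_eq_norm] at hw
        have h2 := (hld w (hball w hw.le)).2
        have h3 := h.V_var ha0.le ha1 (by linarith : 1 / 2 ≤ z.re) hw.le
        calc ‖logDeriv (fun w => F (c + w)) w - V c A μ z‖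
            = ‖(logDeriv (fun w => F (c + w)) w - V c A μ w) +
              ((V c A μ w - V c A μ z : ℝ) : ℂ)‖ := by congr 1; push_cast; ring
          _ ≤ C2 + m := by
              refine (norm_add_le _ _).trans (add_le_add h2 ?_)
              rw [Complex.norm_real, Real.norm_eq_abs]
              exact h3
    have h2 : deriv (fun w => logDeriv (fun w => F (c + w)) w - V c A μ z) z =
        deriv (logDeriv fun w => F (c + w)) z := by
      rw [deriv_sub_const]
    rw [h2] at h1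
    refine h1.trans ?_
    rw [← div_div]
    exact div_le_div_of_nonneg_right (by linarith) hz0.le
  · intro t
    set z : ℂ := ((β + δ : ℝ) : ℂ) + t * I with hz
    have hzre : z.re = β + δ := by rw [hz]; simp
    have h1 := (hld z (by rw [hzre]; linarith)).2
    have h2 := (abs_le.1 ((Complex.abs_re_le_norm _).trans h1)).2
    rw [sub_re, ofReal_re] at h2
    have hA0 : 0 < A := by linarith [h.A1]
    have hpos : ∀ j : Fin m, 0 < c + μ j + |t| + 2 := fun j => by
      have := h.μ0 j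
      have := abs_nonneg t
      linarith
    have hV : V c A μ z ≤ 1 / 2 * Real.log (cond c A μ t) + m * Real.log (β + δ + 1) := by
      unfold V cond
      rw [Real.log_mul hA0.ne' (Finset.prod_ne_zero_iff.2 fun j _ => (hpos j).ne'),
        Real.log_prod fun j _ => (hpos j).ne']
      have hterm : ∀ j : Fin m, Real.log ‖z + (c + μ j : ℝ)‖ / 2 ≤
          1 / 2 * Real.log (c + μ j + |t| + 2) + Real.log (β + δ + 1) := by
        intro j
        have h3 := h.μ0 j
        have h4 := abs_nonneg t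
        have h5 : ‖z + (c + μ j : ℝ)‖ ≤ (c + μ j + |t| + 2) * (β + δ + 1) := by
          have h6 := Complex.norm_le_abs_re_add_abs_im (z + (c + μ j : ℝ))
          have h7 : (z + ((c + μ j : ℝ) : ℂ)).re = β + δ + (c + μ j) := by
            rw [add_re, ofReal_re, hzre]
          have h8 : (z + ((c + μ j : ℝ) : ℂ)).im = t := by rw [hz]; simp
          rw [h7, h8, abs_of_pos (by linarith)] at h6
          nlinarith [mul_nonneg h3.le (show 0 ≤ β + δ by linarith),
            mul_nonneg h4 (show 0 ≤ β + δ by linarith)]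
        have h9 : 0 < ‖z + (c + μ j : ℝ)‖ := by
          refine norm_pos_iff.2 fun h0 => ?_
          have := congrArg Complex.re h0
          rw [add_re, ofReal_re, hzre, zero_re] at this
          linarith
        have h10 := Real.log_le_log h9 h5
        rw [Real.log_mul (hpos j).ne' (by linarith)] at h10
        have h11 : 0 ≤ Real.log (β + δ + 1) := Real.log_nonneg (by linarith)
        linarith
      have hsum : ∑ j, Real.log ‖z + (c + μ j : ℝ)‖ / 2 ≤
          1 / 2 * ∑ j, Real.log (c + μ j + |t| + 2) + m * Real.log (β + δ + 1) := by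
        calc _ ≤ ∑ j : Fin m, (1 / 2 * Real.log (c + μ j + |t| + 2) + Real.log (β + δ + 1)) :=
              Finset.sum_le_sum fun j _ => hterm j
          _ = _ := by rw [Finset.sum_add_distrib, Finset.mul_sum]; simp
      linarith
    linarith

/-- **The Laguerre inequalities of completed L-functions**, uniformly in the analytic conductor. -/
theorem CL.lag (m k : ℕ) {β K δ : ℝ} (hβ : 1 / 2 ≤ β) (hδ : 0 < δ) :
    ∃ C : ℝ, ∀ (c A : ℝ) (μ : Fin m → ℝ) (ρ : Fin k → ℂ) (ε : ℂ) (L F : ℂ → ℂ),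
      CL β K c A μ ρ ε L F → ∀ (t : ℝ) (n : ℕ),
        (β + δ) / 2 * Real.log (cond c A μ t) + C ≤ n → 0 < Lag (fun z => F (c + z)) n t := by
  set δ' : ℝ := min δ 1 with hδ'
  have hδ'0 : 0 < δ' := lt_min hδ one_pos
  have hδ'1 : δ' ≤ 1 := min_le_right _ _
  have hδ'δ : δ' ≤ δ := min_le_left _ _
  obtain ⟨C, hC, hcls⟩ := CL.cls m k (β := β) (K := K) hβ hδ'0 hδ'1
  obtain ⟨N, hN⟩ := lag_pos (b := β + δ' / 2) (C := C) (r0 := β + δ') (by linarith) hC (by linarith)
  refine ⟨max N ((β + δ') * C), ?_⟩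
  intro c A μ ρ ε L F h t n hn
  obtain ⟨h1, h2⟩ := hcls c A μ ρ ε L F h
  have hcond : 0 ≤ Real.log (cond c A μ t) := by
    refine Real.log_nonneg ?_
    unfold cond
    have h3 : 1 ≤ ∏ j, (c + μ j + |t| + 2) := Finset.one_le_prod fun j _ => by
      have := h.μ0 j
      have := abs_nonneg t
      linarith
    have := h.A1
    nlinarith
  have hnn : N ≤ n := by
    have h4 : 0 ≤ (β + δ) / 2 * Real.log (cond c A μ t) := by positivity
    have h5 : N ≤ max N ((β + δ') * C) := le_max_left _ _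
    linarith
  refine hN _ h1 t n hnn ?_
  have h6 := mul_le_mul_of_nonneg_left (h2 t) (show 0 ≤ β + δ' by linarith)
  refine h6.trans ?_
  have h7 : (β + δ') * C ≤ max N ((β + δ') * C) := le_max_right _ _
  have h8 : (β + δ') / 2 * Real.log (cond c A μ t) ≤ (β + δ) / 2 * Real.log (cond c A μ t) := by
    gcongr
  linarith

end

end Pool.Agent.Helper68.UL
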