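import Pool.Agent.Helper68.UL.Cau

set_option autoImplicit false
set_option maxHeartbeats 1000000

/-! The integrand on the arc. -/

open Complex MeasureTheory Set Filter Topology Asymptotics
open scoped ComplexConjugate

namespace Pool.Agent.Helper68.UL

noncomputable section

/-- the logarithmic derivative of `Ph` -/
def Dd (F : ℂ → ℂ) (t : ℝ) (u : ℂ) : ℂ := logDeriv F (u + t * I) + logDeriv F (u - t * I)

lemma arc_re (r θ : ℝ) : (r * cexp (θ * I) : ℂ).re = r * Real.cos θ := by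
  rw [Complex.re_ofReal_mul, Complex.exp_ofReal_mul_I_re]

lemma arc_im (r θ : ℝ) : (r * cexp (θ * I) : ℂ).im = r * Real.sin θ := by
  rw [Complex.im_ofReal_mul, Complex.exp_ofReal_mul_I_im]

lemma arc_norm {r : ℝ} (hr : 0 ≤ r) (θ : ℝ) : ‖(r * cexp (θ * I) : ℂ)‖ = r := by
  rw [norm_mul, Complex.norm_exp_ofReal_mul_I, Complex.norm_real, Real.norm_of_nonneg hr, mul_one]

lemma arc_deriv (r θ : ℝ) :
    HasDerivAt (fun s : ℝ => (r * cexp (s * I) : ℂ)) (r * cexp (θ * I) * I) θ := by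
  have h1 : HasDerivAt (fun s : ℝ => ((s : ℂ) * I)) I θ := by
    simpa using (Complex.ofRealCLM.hasDerivAt (x := θ)).mul_const I
  have h2 := (h1.cexp).const_mul (r : ℂ)
  refine h2.congr_deriv ?_
  ring

lemma cos_half {θ : ℝ} (h0 : 0 ≤ θ) (h1 : θ ≤ 1) : 1 / 2 ≤ Real.cos θ := by
  have := Real.one_sub_sq_div_two_le_cos (x := θ)
  nlinarith

namespace Cls

variable {b C : ℝ} {F : ℂ → ℂ} (h : Cls b C F)
include h

lemma ld_conj (z : ℂ) : logDeriv F (conj z) = conj (logDeriv F z) := by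
  have hd : deriv F (conj z) = conj (deriv F z) := by
    have h1 : HasDerivAt (conj ∘ F ∘ conj) (conj (deriv F z)) (conj z) :=
      (h.diff z).hasDerivAt.conj_conj
    have h2 : (conj ∘ F ∘ conj) = F := by
      funext w
      simp only [Function.comp]
      rw [h.cj, Complex.conj_conj]
    rw [h2] at h1
    exact h1.deriv
  rw [logDeriv_apply, logDeriv_apply, hd, h.cj, map_div₀]

lemma Dd_real (t r : ℝ) : Dd F t r = ((2 * (logDeriv F (r + t * I)).re : ℝ) : ℂ) := by
  unfold Dd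
  have e1 : (r - t * I : ℂ) = conj (r + t * I : ℂ) := by
    rw [map_add, map_mul, Complex.conj_ofReal, Complex.conj_ofReal, Complex.conj_I]; ring
  rw [e1, h.ld_conj, Complex.add_conj]

lemma Ph_ne {t : ℝ} {u : ℂ} (hu : b ≤ u.re) : Ph F t u ≠ 0 := by
  unfold Ph
  exact mul_ne_zero (h.ne _ (by simpa using hu)) (h.ne _ (by simpa using hu))

lemma Ph_deriv {t : ℝ} {u : ℂ} (hu : b ≤ u.re) : HasDerivAt (Ph F t) (Ph F t u * Dd F t u) u := by
  unfold Ph Dd
  have e1 : HasDerivAt (fun u : ℂ => F (u + t * I)) (deriv F (u + t * I)) u := by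
    exact (h.diff (u + t * I)).hasDerivAt.comp_add_const u (t * I)
  have e2 : HasDerivAt (fun u : ℂ => F (u - t * I)) (deriv F (u - t * I)) u := by
    exact (h.diff (u - t * I)).hasDerivAt.comp_sub_const u (t * I)
  have n1 := h.ne (u + t * I) (by simpa using hu)
  have n2 := h.ne (u - t * I) (by simpa using hu)
  refine (e1.mul e2).congr_deriv ?_
  rw [logDeriv_apply, logDeriv_apply]
  field_simp

lemma Dd_deriv {t : ℝ} {u : ℂ} (hu : b ≤ u.re) : ∃ d : ℂ, HasDerivAt (Dd F t) d u ∧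
    ‖d‖ ≤ 2 * C / u.re := by
  unfold Dd
  have n1 : b ≤ (u + t * I).re := by simpa using hu
  have n2 : b ≤ (u - t * I).re := by simpa using hu
  have e1 : HasDerivAt (fun u : ℂ => logDeriv F (u + t * I)) (deriv (logDeriv F) (u + t * I)) u := by
    exact (h.ld_anal n1).differentiableAt.hasDerivAt.comp_add_const u (t * I)
  have e2 : HasDerivAt (fun u : ℂ => logDeriv F (u - t * I)) (deriv (logDeriv F) (u - t * I)) u := by
    exact (h.ld_anal n2).differentiableAt.hasDerivAt.comp_sub_const u (t * I)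
  refine ⟨_, e1.add e2, (norm_add_le _ _).trans ?_⟩
  have b1 := h.der _ n1
  have b2 := h.der _ n2
  have r1 : (u + t * I).re = u.re := by simp
  have r2 : (u - t * I).re = u.re := by simp
  rw [r1] at b1
  rw [r2] at b2
  calc _ ≤ C / u.re + C / u.re := add_le_add b1 b2
    _ = _ := by ring

lemma Dd_lip {t r θ : ℝ} (h0 : 0 ≤ θ) (h1 : θ ≤ 1) (hbr : b ≤ r * Real.cos θ) :
    ‖Dd F t (r * cexp (θ * I)) - Dd F t r‖ ≤ 4 * C * θ := by
  have hb := h.hb
  have hC := h.hC
  have hcθ := cos_half h0 h1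
  have hr0 : 0 < r := by
    by_contra hcon
    push Not at hcon
    nlinarith
  have hcos : ∀ s ∈ Icc 0 θ, b ≤ r * Real.cos s := by
    intro s hs
    refine hbr.trans (mul_le_mul_of_nonneg_left ?_ hr0.le)
    exact Real.cos_le_cos_of_nonneg_of_le_pi hs.1 (by linarith [Real.pi_gt_three]) hs.2
  have key : ∀ s ∈ Icc 0 θ, ∃ d : ℂ, HasDerivWithinAt (fun s : ℝ => Dd F t (r * cexp (s * I))) d
      (Icc 0 θ) s ∧ ‖d‖ ≤ 4 * C := by
    intro s hs
    have hre : b ≤ (r * cexp (s * I) : ℂ).re := by rw [arc_re]; exact hcos s hs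
    obtain ⟨d, hd1, hd2⟩ := h.Dd_deriv (t := t) hre
    refine ⟨d * (r * cexp (s * I) * I),
      (HasDerivAt.comp (h₂ := Dd F t) s hd1 (arc_deriv r s)).hasDerivWithinAt, ?_⟩
    rw [norm_mul, norm_mul, arc_norm hr0.le, Complex.norm_I, mul_one]
    rw [arc_re] at hd2
    have hcs := cos_half hs.1 (hs.2.trans h1)
    have hcs0 : 0 < Real.cos s := by linarith
    calc ‖d‖ * r ≤ 2 * C / (r * Real.cos s) * r := by gcongr
      _ = 2 * C / Real.cos s := by field_simp
      _ ≤ 4 * C := by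
          rw [div_le_iff₀ hcs0]
          nlinarith
  choose! d hd1 hd2 using key
  have := Convex.norm_image_sub_le_of_norm_hasDerivWithin_le hd1 hd2 (convex_Icc 0 θ)
    (left_mem_Icc.2 h0) (right_mem_Icc.2 h0)
  simp only [Complex.ofReal_zero, zero_mul, Complex.exp_zero, mul_one, sub_zero] at this
  rw [Real.norm_of_nonneg h0] at this
  exact this

/-- the integrand near the saddle -/
lemma near {t r : ℝ} {n : ℕ} (hn : r * (logDeriv F (r + t * I)).re = n) {θ : ℝ} (h0 : 0 ≤ θ)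
    (h1 : θ ≤ 1) (hbr : b ≤ r * Real.cos θ) :
    ‖ig (Ph F t) n r θ / Ph F t r - sad n θ‖ ≤
      Real.exp (-(2 / 5 * (n * θ ^ 2))) * (Real.exp (4 * C * r * θ ^ 2) - 1) := by
  have hb := h.hb
  have hC := h.hC
  have hcθ := cos_half h0 h1
  have hr0 : 0 < r := by
    by_contra hcon
    push Not at hcon
    nlinarith
  have hcos : ∀ s ∈ Icc 0 θ, b ≤ r * Real.cos s := by
    intro s hs
    refine hbr.trans (mul_le_mul_of_nonneg_left ?_ hr0.le)
    exact Real.cos_le_cos_of_nonneg_of_le_pi hs.1 (by linarith [Real.pi_gt_three]) hs.2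
  have hbr' : b ≤ (r : ℂ).re := by
    have := hcos 0 (left_mem_Icc.2 h0)
    simpa using this
  have hΦ0 := h.Ph_ne (t := t) hbr'
  -- the quotient
  set k : ℝ → ℂ := fun s => ig (Ph F t) n r s * cexp (-(2 * n * (cexp (s * I) - 1 - s * I))) /
    Ph F t r with hk
  have hkd : ∀ s ∈ Icc 0 θ, HasDerivAt k (k s * (r * cexp (s * I) * I *
      (Dd F t (r * cexp (s * I)) - Dd F t r))) s := by
    intro s hs
    have hre : b ≤ (r * cexp (s * I) : ℂ).re := by rw [arc_re]; exact hcos s hs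
    have e1 : HasDerivAt (fun s : ℝ => Ph F t (r * cexp (s * I)))
        (Ph F t (r * cexp (s * I)) * Dd F t (r * cexp (s * I)) * (r * cexp (s * I) * I)) s :=
      HasDerivAt.comp (h₂ := Ph F t) s (h.Ph_deriv hre) (arc_deriv r s)
    have hid : HasDerivAt (fun s : ℝ => (s : ℂ)) 1 s := Complex.ofRealCLM.hasDerivAt
    have e2 : HasDerivAt (fun s : ℝ => cexp (-(2 * n * s * I)))
        (cexp (-(2 * n * s * I)) * (-(2 * n * I))) s := by
      have : HasDerivAt (fun s : ℝ => (-(2 * n * s * I) : ℂ)) (-(2 * n * I)) s := by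
        have := ((hid.const_mul (2 * n : ℂ)).mul_const I).neg
        rw [mul_one] at this
        exact this
      exact this.cexp
    have e3 : HasDerivAt (fun s : ℝ => cexp (-(2 * n * (cexp (s * I) - 1 - s * I))))
        (cexp (-(2 * n * (cexp (s * I) - 1 - s * I))) * (-(2 * n * (cexp (s * I) * I - I)))) s := by
      have a1 : HasDerivAt (fun s : ℝ => cexp (s * I)) (cexp (s * I) * I) s := by
        have := arc_deriv 1 s
        simpa using this
      have a2 : HasDerivAt (fun s : ℝ => ((s : ℂ) * I)) I s := by simpa using hid.mul_const I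
      have := (((a1.sub_const 1).sub a2).const_mul (2 * n : ℂ)).neg
      exact this.cexp
    have e4 := ((e1.mul e2).mul e3).div_const (Ph F t r)
    refine e4.congr_deriv ?_
    rw [h.Dd_real]
    have hn' : (r : ℂ) * ((2 * (logDeriv F (r + t * I)).re : ℝ) : ℂ) = 2 * n := by
      rw [← Complex.ofReal_mul, show r * (2 * (logDeriv F (r + t * I)).re) =
        2 * (r * (logDeriv F (r + t * I)).re) by ring, hn]
      push_cast; ring
    simp only [hk, ig, Pi.mul_apply]
    linear_combination ((Ph F t (r * cexp (s * I)) * cexp (-(2 * n * s * I)) *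
      cexp (-(2 * n * (cexp (s * I) - 1 - s * I))) / Ph F t r) * cexp (s * I) * I) * hn'
  have hk0 : k 0 = 1 := by
    simp only [hk, ig, Complex.ofReal_zero, zero_mul, Complex.exp_zero, mul_one, mul_zero, sub_self,
      neg_zero]
    exact div_self hΦ0
  have hgr : ‖k θ - 1‖ ≤ Real.exp (4 * C * r * θ ^ 2) - 1 := by
    rcases h0.eq_or_lt with hz | hz
    · rw [← hz, hk0]
      simp
    have hKpos : 0 < 4 * C * r * θ := by positivity
    have hcont : ContinuousOn (fun s => k s - 1) (Icc 0 θ) := fun s hs =>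
      ((hkd s hs).continuousAt.sub continuousAt_const).continuousWithinAt
    have := norm_le_gronwallBound_of_norm_deriv_right_le (f := fun s => k s - 1)
      (f' := fun s => k s * (r * cexp (s * I) * I * (Dd F t (r * cexp (s * I)) - Dd F t r)))
      (δ := 0) (K := 4 * C * r * θ) (ε := 4 * C * r * θ) (a := 0) (b := θ) hcont
      (fun s hs => ((hkd s ⟨hs.1, hs.2.le⟩).sub_const 1).hasDerivWithinAt) (by simp [hk0]) ?_ θ
      (right_mem_Icc.2 h0)
    · rw [gronwallBound_of_K_ne_0 hKpos.ne', sub_zero] at this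
      simp only [zero_mul, zero_add, div_self hKpos.ne', one_mul] at this
      rwa [show 4 * C * r * θ * θ = 4 * C * r * θ ^ 2 by ring] at this
    · intro s hs
      have hs1 : s ≤ θ := hs.2.le
      have hl := h.Dd_lip (t := t) hs.1 (hs1.trans h1) (hcos s ⟨hs.1, hs1⟩)
      rw [norm_mul, norm_mul, norm_mul, arc_norm hr0.le, Complex.norm_I, mul_one]
      have hks : ‖k s‖ ≤ ‖k s - 1‖ + 1 := by
        calc ‖k s‖ = ‖(k s - 1) + 1‖ := by congr 1; ring
          _ ≤ _ := (norm_add_le _ _).trans (by rw [norm_one])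
      calc ‖k s‖ * (r * ‖Dd F t (r * cexp (s * I)) - Dd F t r‖)
          ≤ (‖k s - 1‖ + 1) * (r * (4 * C * s)) := by gcongr
        _ ≤ (‖k s - 1‖ + 1) * (r * (4 * C * θ)) := by gcongr
        _ = _ := by ring
  have hfin : ig (Ph F t) n r θ / Ph F t r - sad n θ = sad n θ * (k θ - 1) := by
    simp only [hk, sad]
    rw [Complex.exp_neg]
    have := Complex.exp_ne_zero (2 * n * (cexp (θ * I) - 1 - θ * I))
    push_cast
    field_simp
  rw [hfin, norm_mul]
  refine mul_le_mul (norm_sad_le (Nat.cast_nonneg n) ?_) hgr (norm_nonneg _) (Real.exp_pos _).le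
  rw [abs_of_nonneg h0]
  linarith [Real.pi_gt_three]

/-- growth of `log ‖Φ‖` along the arc, to the right of `b` -/
lemma arc_mono {t r θ₁ θ₂ : ℝ} (hr : 0 < r) (h0 : 0 ≤ θ₁) (h12 : θ₁ ≤ θ₂) (h2 : θ₂ ≤ Real.pi / 2)
    (hbr : b ≤ r * Real.cos θ₂) :
    ‖Ph F t (r * cexp (θ₂ * I))‖ ≤
      ‖Ph F t (r * cexp (θ₁ * I))‖ * Real.exp (r * (4 * C + 1) * (θ₂ - θ₁)) := by
  have hb := h.hb
  have hC := h.hC
  have hpi := Real.pi_gt_three
  have hcos : ∀ s ∈ Icc θ₁ θ₂, b ≤ r * Real.cos s := by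
    intro s hs
    refine hbr.trans (mul_le_mul_of_nonneg_left ?_ hr.le)
    exact Real.cos_le_cos_of_nonneg_of_le_pi (h0.trans hs.1) (by linarith) hs.2
  have hD : ∀ s ∈ Icc θ₁ θ₂, HasDerivAt (fun s : ℝ => Real.log ‖Ph F t (r * cexp (s * I))‖)
      (r * cexp (s * I) * I * Dd F t (r * cexp (s * I))).re s := by
    intro s hs
    have hre : b ≤ (r * cexp (s * I) : ℂ).re := by rw [arc_re]; exact hcos s hs
    have e1 : HasDerivAt (fun s : ℝ => Ph F t (r * cexp (s * I)))
        (Ph F t (r * cexp (s * I)) * Dd F t (r * cexp (s * I)) * (r * cexp (s * I) * I)) s :=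
      HasDerivAt.comp (h₂ := Ph F t) s (h.Ph_deriv hre) (arc_deriv r s)
    have hne := h.Ph_ne (t := t) hre
    refine (hasDerivAt_log_norm e1 hne).congr_deriv ?_
    congr 1
    field_simp
  have hDb : ∀ s ∈ Icc θ₁ θ₂, (r * cexp (s * I) * I * Dd F t (r * cexp (s * I))).re ≤
      r * (4 * C + 1) := by
    intro s hs
    have hre : b ≤ (r * cexp (s * I) : ℂ).re := by rw [arc_re]; exact hcos s hs
    have hs0 : 0 ≤ s := h0.trans hs.1
    have hsin0 : 0 ≤ Real.sin s := Real.sin_nonneg_of_nonneg_of_le_pi hs0 (by linarith [hs.2])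
    have hsin1 := Real.sin_le_one s
    have hcos0 : 0 ≤ Real.cos s := Real.cos_nonneg_of_neg_pi_div_two_le_of_le (by linarith)
      (by linarith [hs.2])
    have hcos1 := Real.cos_le_one s
    have n1 : b ≤ (r * cexp (s * I) + t * I : ℂ).re := by simpa using hre
    have n2 : b ≤ (r * cexp (s * I) - t * I : ℂ).re := by simpa using hre
    have i1 := h.im _ n1
    have i2 := h.im _ n2
    have l1 := h.low _ n1
    have l2 := h.low _ n2
    have hlog : ∀ x : ℝ, b ≤ x → -1 ≤ Real.log x := by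
      intro x hx
      have h3 : Real.log (1 / 2) ≤ Real.log x := Real.log_le_log (by norm_num) (by linarith)
      have h4 : Real.log (1 / 2) = -Real.log 2 := by rw [one_div, Real.log_inv]
      have := Real.log_two_lt_d9
      linarith
    have g1 := hlog _ n1
    have g2 := hlog _ n2
    have hDre : -(2 * C + 1) ≤ (Dd F t (r * cexp (s * I))).re := by
      unfold Dd
      rw [Complex.add_re]
      linarith
    have hDim : |(Dd F t (r * cexp (s * I))).im| ≤ 2 * C := by
      unfold Dd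
      rw [Complex.add_im]
      exact (abs_add_le _ _).trans (by linarith)
    have e : (r * cexp (s * I) * I * Dd F t (r * cexp (s * I))).re =
        r * (-(Real.sin s * (Dd F t (r * cexp (s * I))).re) -
          Real.cos s * (Dd F t (r * cexp (s * I))).im) := by
      have q1 := arc_re r s
      have q2 := arc_im r s
      set w : ℂ := r * cexp (s * I) with hw
      rw [Complex.mul_re, Complex.mul_re, Complex.mul_im w I, q1, q2, Complex.I_re, Complex.I_im]
      ring
    rw [e]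
    refine mul_le_mul_of_nonneg_left ?_ hr.le
    have a1 : -(Real.sin s * (Dd F t (r * cexp (s * I))).re) ≤ 2 * C + 1 := by
      have : -(Dd F t (r * cexp (s * I))).re ≤ 2 * C + 1 := by linarith
      calc -(Real.sin s * (Dd F t (r * cexp (s * I))).re) =
            Real.sin s * (-(Dd F t (r * cexp (s * I))).re) := by ring
        _ ≤ Real.sin s * (2 * C + 1) := mul_le_mul_of_nonneg_left this hsin0
        _ ≤ 1 * (2 * C + 1) := mul_le_mul_of_nonneg_right hsin1 (by linarith)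
        _ = _ := one_mul _
    have a2 : -(Real.cos s * (Dd F t (r * cexp (s * I))).im) ≤ 2 * C := by
      have : -(Dd F t (r * cexp (s * I))).im ≤ 2 * C := by linarith [(abs_le.1 hDim).1]
      calc -(Real.cos s * (Dd F t (r * cexp (s * I))).im) =
            Real.cos s * (-(Dd F t (r * cexp (s * I))).im) := by ring
        _ ≤ Real.cos s * (2 * C) := mul_le_mul_of_nonneg_left this hcos0
        _ ≤ 1 * (2 * C) := mul_le_mul_of_nonneg_right hcos1 (by linarith)
        _ = _ := one_mul _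
    linarith
  -- monotonicity
  have hanti : AntitoneOn (fun s : ℝ => Real.log ‖Ph F t (r * cexp (s * I))‖ - r * (4 * C + 1) * s)
      (Icc θ₁ θ₂) := by
    refine antitoneOn_of_deriv_nonpos (convex_Icc _ _) ?_ ?_ ?_
    · intro s hs
      exact ((hD s hs).continuousAt.sub (by fun_prop)).continuousWithinAt
    · intro s hs
      have hs' := interior_subset hs
      exact ((hD s hs').differentiableAt.sub (by fun_prop)).differentiableWithinAt
    · intro s hs
      have hs' := interior_subset hs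
      have h1 : HasDerivAt (fun s : ℝ => Real.log ‖Ph F t (r * cexp (s * I))‖ - r * (4 * C + 1) * s)
          ((r * cexp (s * I) * I * Dd F t (r * cexp (s * I))).re - r * (4 * C + 1)) s := by
        have := (hD s hs').sub ((hasDerivAt_id s).const_mul (r * (4 * C + 1)))
        rw [mul_one] at this
        exact this
      rw [h1.deriv]
      linarith [hDb s hs']
  have h3 := hanti (left_mem_Icc.2 h12) (right_mem_Icc.2 h12) h12
  simp only at h3
  have p1 : 0 < ‖Ph F t (r * cexp (θ₁ * I))‖ := norm_pos_iff.2 (h.Ph_ne (by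
    rw [arc_re]; exact hcos θ₁ (left_mem_Icc.2 h12)))
  have p2 : 0 < ‖Ph F t (r * cexp (θ₂ * I))‖ := norm_pos_iff.2 (h.Ph_ne (by
    rw [arc_re]; exact hbr))
  calc ‖Ph F t (r * cexp (θ₂ * I))‖ = Real.exp (Real.log ‖Ph F t (r * cexp (θ₂ * I))‖) :=
        (Real.exp_log p2).symm
    _ ≤ Real.exp (Real.log ‖Ph F t (r * cexp (θ₁ * I))‖ + r * (4 * C + 1) * (θ₂ - θ₁)) := by
        refine Real.exp_le_exp.2 ?_
        linarith
    _ = _ := by rw [Real.exp_add, Real.exp_log p1]

/-- the part of the arc in the strip -/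
lemma arc_strip {t r θb θ : ℝ} (hr : 0 < r) (hθb : r * Real.cos θb = b) (hb0 : 0 ≤ θb)
    (h12 : θb ≤ θ) (h2 : θ ≤ Real.pi / 2) :
    ‖Ph F t (r * cexp (θ * I))‖ ≤
      ‖Ph F t (r * cexp (θb * I))‖ * Real.exp (2 * (C ^ 2 / 4 + b ^ 2) + 2 * C * b) := by
  have hb := h.hb
  have hC := h.hC
  have hpi := Real.pi_gt_three
  have hcos0 : 0 ≤ Real.cos θ := Real.cos_nonneg_of_neg_pi_div_two_le_of_le (by linarith) h2
  have hcosle : Real.cos θ ≤ Real.cos θb :=
    Real.cos_le_cos_of_nonneg_of_le_pi hb0 (by linarith) h12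
  have hsinle : Real.sin θb ≤ Real.sin θ :=
    Real.sin_le_sin_of_le_of_le_pi_div_two (by linarith) h2 h12
  have hsb : 0 ≤ Real.sin θb := Real.sin_nonneg_of_nonneg_of_le_pi hb0 (by linarith)
  set x := r * Real.cos θ with hx
  set y := r * Real.sin θ with hy
  set yb := r * Real.sin θb with hyb
  have hx0 : 0 ≤ x := by positivity
  have hxb : x ≤ b := by rw [← hθb, hx]; gcongr
  have hyb0 : 0 ≤ yb := by positivity
  have hyyb : yb ≤ y := by rw [hy, hyb]; gcongr
  have hpyt : x ^ 2 + y ^ 2 = r ^ 2 := by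
    rw [hx, hy, mul_pow, mul_pow, ← mul_add, Real.cos_sq_add_sin_sq, mul_one]
  have hpyt2 : b ^ 2 + yb ^ 2 = r ^ 2 := by
    rw [← hθb, hyb, mul_pow, mul_pow, ← mul_add, Real.cos_sq_add_sin_sq, mul_one]
  have hdiff : y - yb ≤ b := by
    nlinarith
  have hu : (r * cexp (θ * I) : ℂ) = x + y * I := by
    rw [← Complex.re_add_im (r * cexp (θ * I)), arc_re, arc_im]
  have hub : (r * cexp (θb * I) : ℂ) = b + yb * I := by
    rw [← Complex.re_add_im (r * cexp (θb * I)), arc_re, arc_im, hθb]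
  have key : ∀ v : ℝ, ‖F (x + (y + v : ℝ) * I)‖ ≤
      ‖F (b + (yb + v : ℝ) * I)‖ * Real.exp (C ^ 2 / 4 + b ^ 2 + C * b) := by
    intro v
    have h1 := h.strip (z := x + (y + v : ℝ) * I) (by simpa [abs_of_nonneg hx0] using hxb)
    have e1 : (x + ((y + v : ℝ) : ℂ) * I).im = y + v := by simp
    rw [e1] at h1
    have h2 := h.line le_rfl (y + v) (yb + v)
    have e2 : |y + v - (yb + v)| ≤ b := by
      rw [show y + v - (yb + v) = y - yb by ring, abs_of_nonneg (by linarith)]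
      exact hdiff
    calc _ ≤ Real.exp (C ^ 2 / 4 + b ^ 2) * (‖F (b + (yb + v : ℝ) * I)‖ *
          Real.exp (C * |y + v - (yb + v)|)) := h1.trans (by gcongr)
      _ ≤ Real.exp (C ^ 2 / 4 + b ^ 2) * (‖F (b + (yb + v : ℝ) * I)‖ * Real.exp (C * b)) := by
          gcongr
      _ = _ := by rw [Real.exp_add (C ^ 2 / 4 + b ^ 2)]; ring
  rw [hu, hub]
  unfold Ph
  have e1 : (x + y * I + t * I : ℂ) = x + (y + t : ℝ) * I := by push_cast; ring
  have e2 : (x + y * I - t * I : ℂ) = x + (y + (-t) : ℝ) * I := by push_cast; ring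
  have e3 : (b + yb * I + t * I : ℂ) = b + (yb + t : ℝ) * I := by push_cast; ring
  have e4 : (b + yb * I - t * I : ℂ) = b + (yb + (-t) : ℝ) * I := by push_cast; ring
  rw [e1, e2, e3, e4, norm_mul, norm_mul]
  calc _ ≤ (‖F (b + (yb + t : ℝ) * I)‖ * Real.exp (C ^ 2 / 4 + b ^ 2 + C * b)) *
        (‖F (b + (yb + (-t) : ℝ) * I)‖ * Real.exp (C ^ 2 / 4 + b ^ 2 + C * b)) :=
        mul_le_mul (key t) (key (-t)) (norm_nonneg _) (by positivity)
    _ = _ := by
        rw [show 2 * (C ^ 2 / 4 + b ^ 2) + 2 * C * b = (C ^ 2 / 4 + b ^ 2 + C * b) +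
          (C ^ 2 / 4 + b ^ 2 + C * b) by ring, Real.exp_add (C ^ 2 / 4 + b ^ 2 + C * b)]
        ring

/-- the integrand away from the saddle -/
lemma far {t r θ₁ : ℝ} {n : ℕ} (hn : r * (logDeriv F (r + t * I)).re = n) (hr : b ≤ r)
    (h0 : 0 ≤ θ₁) (h1 : θ₁ ≤ 1) (hbr : b ≤ r * Real.cos θ₁) {θ : ℝ} (h3 : θ₁ ≤ θ)
    (h4 : θ ≤ Real.pi / 2) :
    ‖ig (Ph F t) n r θ / Ph F t r‖ ≤ Real.exp (2 * (C ^ 2 / 4 + b ^ 2) + 2 * C * b +
      2 * r * (4 * C + 1) + 4 * C * r * θ₁ ^ 2 - 2 / 5 * (n * θ₁ ^ 2)) := by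
  have hb := h.hb
  have hC := h.hC
  have hpi := Real.pi_gt_three
  have hpi2 := Real.pi_lt_d2
  have hr0 : 0 < r := by linarith
  have hbr' : b ≤ (r : ℂ).re := by simpa using hr
  have hΦ0 := h.Ph_ne (t := t) hbr'
  have hΦp : 0 < ‖Ph F t r‖ := norm_pos_iff.2 hΦ0
  -- at the end of the first part
  have hend : ‖Ph F t (r * cexp (θ₁ * I))‖ / ‖Ph F t r‖ ≤
      Real.exp (4 * C * r * θ₁ ^ 2 - 2 / 5 * (n * θ₁ ^ 2)) := by
    have hnear := h.near hn h0 h1 hbr
    have hs := norm_sad_le (n := n) (θ := θ₁) (Nat.cast_nonneg n) (by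
      rw [abs_of_nonneg h0]; linarith)
    have e1 : ‖ig (Ph F t) n r θ₁ / Ph F t r‖ = ‖Ph F t (r * cexp (θ₁ * I))‖ / ‖Ph F t r‖ := by
      unfold ig
      rw [norm_div, norm_mul]
      have : ‖cexp (-(2 * n * θ₁ * I))‖ = 1 := by
        rw [show (-(2 * n * θ₁ * I) : ℂ) = ((-(2 * n * θ₁) : ℝ) : ℂ) * I by push_cast; ring,
          Complex.norm_exp_ofReal_mul_I]
      rw [this, mul_one]
    rw [← e1]
    calc ‖ig (Ph F t) n r θ₁ / Ph F t r‖
        = ‖(ig (Ph F t) n r θ₁ / Ph F t r - sad n θ₁) + sad n θ₁‖ := by congr 1; ring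
      _ ≤ _ := norm_add_le _ _
      _ ≤ Real.exp (-(2 / 5 * (n * θ₁ ^ 2))) * (Real.exp (4 * C * r * θ₁ ^ 2) - 1) +
          Real.exp (-(2 / 5 * (n * θ₁ ^ 2))) := add_le_add hnear hs
      _ = Real.exp (4 * C * r * θ₁ ^ 2 + -(2 / 5 * (n * θ₁ ^ 2))) := by
          rw [Real.exp_add (4 * C * r * θ₁ ^ 2)]; ring
      _ = _ := by rw [← sub_eq_add_neg]
  -- the angle where the arc enters the strip
  set θb := Real.arccos (b / r) with hθb
  have hbr1 : b / r ≤ 1 := by rw [div_le_one hr0]; exact hr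
  have hcosb : r * Real.cos θb = b := by
    rw [hθb, Real.cos_arccos (by have : 0 ≤ b / r := by positivity
                                 linarith) hbr1]
    field_simp
  have hθb0 : 0 ≤ θb := Real.arccos_nonneg _
  have hθbpi : θb ≤ Real.pi / 2 := by
    rw [hθb, Real.arccos_le_pi_div_two]
    positivity
  have hθ1b : θ₁ ≤ θb := by
    by_contra hcon
    push Not at hcon
    have := Real.cos_lt_cos_of_nonneg_of_le_pi hθb0 (by linarith) hcon
    nlinarith
  have hmain : ‖Ph F t (r * cexp (θ * I))‖ ≤ ‖Ph F t (r * cexp (θ₁ * I))‖ *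
      Real.exp (2 * (C ^ 2 / 4 + b ^ 2) + 2 * C * b + 2 * r * (4 * C + 1)) := by
    rcases le_total θ θb with h5 | h5
    · have hc : b ≤ r * Real.cos θ := by
        rw [← hcosb]
        exact mul_le_mul_of_nonneg_left
          (Real.cos_le_cos_of_nonneg_of_le_pi (h0.trans h3) (by linarith) h5) hr0.le
      refine (h.arc_mono (t := t) hr0 h0 h3 h4 hc).trans ?_
      refine mul_le_mul_of_nonneg_left (Real.exp_le_exp.2 ?_) (norm_nonneg _)
      have a1 : r * (4 * C + 1) * (θ - θ₁) ≤ r * (4 * C + 1) * 2 := by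
        refine mul_le_mul_of_nonneg_left (by linarith) (by positivity)
      have a2 : 0 ≤ 2 * (C ^ 2 / 4 + b ^ 2) + 2 * C * b := by positivity
      linarith
    · refine (h.arc_strip (t := t) hr0 hcosb hθb0 h5 h4).trans ?_
      have h6 := h.arc_mono (t := t) hr0 h0 hθ1b hθbpi hcosb.ge
      calc _ ≤ (‖Ph F t (r * cexp (θ₁ * I))‖ * Real.exp (r * (4 * C + 1) * (θb - θ₁))) *
            Real.exp (2 * (C ^ 2 / 4 + b ^ 2) + 2 * C * b) := by gcongr
        _ = ‖Ph F t (r * cexp (θ₁ * I))‖ * Real.exp (r * (4 * C + 1) * (θb - θ₁) +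
            (2 * (C ^ 2 / 4 + b ^ 2) + 2 * C * b)) := by
            rw [Real.exp_add (r * (4 * C + 1) * (θb - θ₁))]; ring
        _ ≤ _ := by
          refine mul_le_mul_of_nonneg_left (Real.exp_le_exp.2 ?_) (norm_nonneg _)
          have a1 : r * (4 * C + 1) * (θb - θ₁) ≤ r * (4 * C + 1) * 2 := by
            refine mul_le_mul_of_nonneg_left (by linarith) (by positivity)
          linarith
  have e1 : ‖ig (Ph F t) n r θ / Ph F t r‖ = ‖Ph F t (r * cexp (θ * I))‖ / ‖Ph F t r‖ := by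
    unfold ig
    rw [norm_div, norm_mul]
    have : ‖cexp (-(2 * n * θ * I))‖ = 1 := by
      rw [show (-(2 * n * θ * I) : ℂ) = ((-(2 * n * θ) : ℝ) : ℂ) * I by push_cast; ring,
        Complex.norm_exp_ofReal_mul_I]
    rw [this, mul_one]
  rw [e1]
  calc ‖Ph F t (r * cexp (θ * I))‖ / ‖Ph F t r‖
      ≤ ‖Ph F t (r * cexp (θ₁ * I))‖ *
        Real.exp (2 * (C ^ 2 / 4 + b ^ 2) + 2 * C * b + 2 * r * (4 * C + 1)) / ‖Ph F t r‖ := by
        gcongr
    _ = ‖Ph F t (r * cexp (θ₁ * I))‖ / ‖Ph F t r‖ *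
        Real.exp (2 * (C ^ 2 / 4 + b ^ 2) + 2 * C * b + 2 * r * (4 * C + 1)) := by ring
    _ ≤ Real.exp (4 * C * r * θ₁ ^ 2 - 2 / 5 * (n * θ₁ ^ 2)) *
        Real.exp (2 * (C ^ 2 / 4 + b ^ 2) + 2 * C * b + 2 * r * (4 * C + 1)) := by gcongr
    _ = _ := by
        rw [← Real.exp_add]
        congr 1
        ring

end Cls

end

end Pool.Agent.Helper68.UL
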