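import Pool.Agent.Helper68.UL.Cls

set_option autoImplicit false
set_option maxHeartbeats 1000000

/-! Cauchy's formula on the right half of a circle, and the Laguerre expressions. -/

open Complex MeasureTheory Set Filter Topology Asymptotics
open scoped ComplexConjugate

namespace Pool.Agent.Helper68.UL

noncomputable section

/-- the function `u ↦ F(u + it) F(u - it)` -/
def Ph (F : ℂ → ℂ) (t : ℝ) (u : ℂ) : ℂ := F (u + t * I) * F (u - t * I)

/-- Laguerre expressions -/
def Lag (F : ℂ → ℂ) (n : ℕ) (t : ℝ) : ℝ :=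
  iteratedDeriv (2 * n) (fun u : ℝ => ‖F (u + t * I)‖ ^ 2) 0

/-- the integrand -/
def ig (Φ : ℂ → ℂ) (n : ℕ) (r θ : ℝ) : ℂ := Φ (r * cexp (θ * I)) * cexp (-(2 * n * θ * I))

lemma ig_cont {Φ : ℂ → ℂ} (hΦ : Differentiable ℂ Φ) (n : ℕ) (r : ℝ) : Continuous (ig Φ n r) := by
  unfold ig
  exact (hΦ.continuous.comp (by fun_prop)).mul (by fun_prop)

lemma cauchy_even {Φ : ℂ → ℂ} (hΦ : Differentiable ℂ Φ) (he : ∀ u, Φ (-u) = Φ u) (n : ℕ) {r : ℝ}
    (hr : 0 < r) : iteratedDeriv (2 * n) Φ 0 =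
      (((2 * n).factorial / (Real.pi * r ^ (2 * n)) : ℝ) : ℂ) *
        ∫ θ in (-(Real.pi / 2))..(Real.pi / 2), ig Φ n r θ := by
  have h1 := (hΦ.diffContOnCl (s := Metric.ball 0 r)).circleIntegral_one_div_sub_center_pow_smul hr
    (2 * n)
  have hcont := ig_cont hΦ n r
  -- the circle integral
  have h2 : (∮ z in C(0, r), (1 / (z - 0) ^ (2 * n + 1)) • Φ z) =
      I * ((r : ℂ) ^ (2 * n))⁻¹ * ∫ θ in (0 : ℝ)..(2 * Real.pi), ig Φ n r θ := by
    rw [circleIntegral, ← intervalIntegral.integral_const_mul]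
    refine intervalIntegral.integral_congr fun θ _ => ?_
    simp only [deriv_circleMap, circleMap, zero_add, sub_zero, smul_eq_mul, ig]
    have hr0 : (r : ℂ) ≠ 0 := by exact_mod_cast hr.ne'
    have he0 : cexp (θ * I) ≠ 0 := Complex.exp_ne_zero _
    have e1 : cexp (-(2 * n * θ * I)) = (cexp (θ * I) ^ (2 * n))⁻¹ := by
      rw [← Complex.exp_nat_mul, ← Complex.exp_neg]
      congr 1
      push_cast
      ring
    rw [e1, mul_pow, pow_succ, pow_succ]
    field_simp
  -- periodicity and evenness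
  have hper : Function.Periodic (ig Φ n r) (2 * Real.pi) := by
    intro θ
    unfold ig
    have e1 : cexp (((θ + 2 * Real.pi : ℝ) : ℂ) * I) = cexp (θ * I) := by
      rw [show (((θ + 2 * Real.pi : ℝ) : ℂ) * I) = θ * I + 2 * Real.pi * I by push_cast; ring,
        Complex.exp_add, Complex.exp_two_pi_mul_I, mul_one]
    have e2 : cexp (-(2 * n * ((θ + 2 * Real.pi : ℝ) : ℂ) * I)) = cexp (-(2 * n * θ * I)) := by
      rw [show (-(2 * n * ((θ + 2 * Real.pi : ℝ) : ℂ) * I)) =
        -(2 * n * θ * I) + ((-(2 * n) : ℤ) : ℂ) * (2 * Real.pi * I) by push_cast; ring,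
        Complex.exp_add, Complex.exp_int_mul_two_pi_mul_I, mul_one]
    rw [e1, e2]
  have hpi : ∀ θ : ℝ, ig Φ n r (θ + Real.pi) = ig Φ n r θ := by
    intro θ
    unfold ig
    have e1 : cexp (((θ + Real.pi : ℝ) : ℂ) * I) = -cexp (θ * I) := by
      rw [show (((θ + Real.pi : ℝ) : ℂ) * I) = θ * I + Real.pi * I by push_cast; ring,
        Complex.exp_add, Complex.exp_pi_mul_I]
      ring
    have e2 : cexp (-(2 * n * ((θ + Real.pi : ℝ) : ℂ) * I)) = cexp (-(2 * n * θ * I)) := by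
      rw [show (-(2 * n * ((θ + Real.pi : ℝ) : ℂ) * I)) =
        -(2 * n * θ * I) + ((-n : ℤ) : ℂ) * (2 * Real.pi * I) by push_cast; ring,
        Complex.exp_add, Complex.exp_int_mul_two_pi_mul_I, mul_one]
    rw [e1, e2, mul_neg, he]
  have h3 : ∫ θ in (0 : ℝ)..(2 * Real.pi), ig Φ n r θ =
      2 * ∫ θ in (-(Real.pi / 2))..(Real.pi / 2), ig Φ n r θ := by
    have a1 := hper.intervalIntegral_add_eq 0 (-(Real.pi / 2))
    rw [zero_add] at a1
    rw [a1, ← intervalIntegral.integral_add_adjacent_intervals (b := Real.pi / 2)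
      (hcont.intervalIntegrable _ _) (hcont.intervalIntegrable _ _)]
    have a2 : ∫ θ in (Real.pi / 2)..(-(Real.pi / 2) + 2 * Real.pi), ig Φ n r θ =
        ∫ θ in (-(Real.pi / 2))..(Real.pi / 2), ig Φ n r (θ + Real.pi) := by
      rw [intervalIntegral.integral_comp_add_right]
      congr 1 <;> ring
    rw [a2]
    simp only [hpi]
    ring
  rw [h2, h3] at h1
  have hf : ((2 * n).factorial : ℂ) ≠ 0 := by exact_mod_cast (2 * n).factorial_ne_zero
  have hr0 : (r : ℂ) ≠ 0 := by exact_mod_cast hr.ne'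
  have hp : (Real.pi : ℂ) ≠ 0 := by exact_mod_cast Real.pi_ne_zero
  rw [smul_eq_mul] at h1
  push_cast
  have h4 : iteratedDeriv (2 * n) Φ 0 = ((2 * n).factorial : ℂ) / (2 * Real.pi * I) *
      (2 * Real.pi * I / ((2 * n).factorial : ℂ) * iteratedDeriv (2 * n) Φ 0) := by
    field_simp
  rw [h4, ← h1]
  field_simp

/-- derivatives of a real restriction -/
lemma real_iter {f : ℂ → ℂ} (hf : Differentiable ℂ f) {h : ℝ → ℝ} (hh : ∀ u : ℝ, ((h u : ℝ) : ℂ) = f u)
    (m : ℕ) : (∀ u : ℝ, ((iteratedDeriv m h u : ℝ) : ℂ) = iteratedDeriv m f u) ∧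
      Differentiable ℂ (iteratedDeriv m f) := by
  induction m with
  | zero => exact ⟨fun u => by simpa using hh u, by simpa using hf⟩
  | succ m ih =>
    obtain ⟨h1, h2⟩ := ih
    refine ⟨fun u => ?_, ?_⟩
    · rw [iteratedDeriv_succ, iteratedDeriv_succ]
      have h3 : HasDerivAt (iteratedDeriv m f) (deriv (iteratedDeriv m f) u) (u : ℂ) :=
        (h2 u).hasDerivAt
      have h4 := h3.real_of_complex
      have h5 : (fun x : ℝ => (iteratedDeriv m f (x : ℂ)).re) = iteratedDeriv m h := by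
        funext x
        rw [← h1 x, Complex.ofReal_re]
      rw [h5] at h4
      rw [h4.deriv]
      have h6 : HasDerivAt (fun x : ℝ => iteratedDeriv m f (x : ℂ)) (deriv (iteratedDeriv m f) u) u :=
        h3.comp_ofReal
      have h7 : (fun x : ℝ => iteratedDeriv m f (x : ℂ)) = fun x : ℝ => ((iteratedDeriv m h x : ℝ) : ℂ) := by
        funext x; rw [h1 x]
      rw [h7] at h6
      have h8 : HasDerivAt (fun x : ℝ => (((iteratedDeriv m h x : ℝ) : ℂ))) (((deriv (iteratedDeriv m f) u).re : ℝ) : ℂ) u :=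
        h4.ofReal_comp
      exact (h8.unique h6)
    · rw [iteratedDeriv_succ]
      intro z
      exact ((h2.analyticAt z).deriv).differentiableAt

variable {F : ℂ → ℂ}

lemma Ph_diff (hF : Differentiable ℂ F) (t : ℝ) : Differentiable ℂ (Ph F t) := by
  unfold Ph
  exact (hF.comp (by fun_prop)).mul (hF.comp (by fun_prop))

lemma Ph_even (hF : (∀ z, F (-z) = F z) ∨ (∀ z, F (-z) = -F z)) (t : ℝ) (u : ℂ) :
    Ph F t (-u) = Ph F t u := by
  unfold Ph
  have e1 : (-u + t * I : ℂ) = -(u - t * I) := by ring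
  have e2 : (-u - t * I : ℂ) = -(u + t * I) := by ring
  rcases hF with h | h <;> rw [e1, e2, h, h] <;> ring

lemma Ph_real (hc : ∀ z, F (conj z) = conj (F z)) (t u : ℝ) :
    ((‖F (u + t * I)‖ ^ 2 : ℝ) : ℂ) = Ph F t u := by
  unfold Ph
  have e1 : (u - t * I : ℂ) = conj (u + t * I : ℂ) := by
    rw [map_add, map_mul, Complex.conj_ofReal, Complex.conj_ofReal, Complex.conj_I]; ring
  rw [e1, hc, Complex.mul_conj, Complex.normSq_eq_norm_sq]

/-- the Laguerre expressions as integrals -/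
lemma Lag_eq (hF : Differentiable ℂ F) (hc : ∀ z, F (conj z) = conj (F z))
    (hfe : (∀ z, F (-z) = F z) ∨ (∀ z, F (-z) = -F z)) (n : ℕ) (t : ℝ) {r : ℝ} (hr : 0 < r) :
    Lag F n t = (2 * n).factorial / (Real.pi * r ^ (2 * n)) *
      (∫ θ in (-(Real.pi / 2))..(Real.pi / 2), ig (Ph F t) n r θ).re := by
  have h1 := (real_iter (Ph_diff hF t) (h := fun u : ℝ => ‖F (u + t * I)‖ ^ 2)
    (fun u => Ph_real hc t u) (2 * n)).1 0
  rw [Complex.ofReal_zero, cauchy_even (Ph_diff hF t) (Ph_even hfe t) n hr] at h1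
  have h2 := congrArg Complex.re h1
  rw [Complex.ofReal_re, Complex.re_ofReal_mul] at h2
  exact h2

end

end Pool.Agent.Helper68.UL
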