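import Pool.Agent.Helper68.UL.Int

set_option autoImplicit false
set_option maxHeartbeats 1000000

/-! Even or odd entire functions with a regular logarithmic derivative to the right of a strip. -/

open Complex MeasureTheory Set Filter Topology Asymptotics
open scoped ComplexConjugate

namespace Pool.Agent.Helper68.UL

noncomputable section

/-- the abstract class -/
structure Cls (b C : ℝ) (F : ℂ → ℂ) : Prop where
  hb : 1 / 2 ≤ b
  hC : 1 ≤ C
  diff : Differentiable ℂ F
  cj : ∀ z, F (conj z) = conj (F z)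
  fe : (∀ z, F (-z) = F z) ∨ (∀ z, F (-z) = -F z)
  fin : ∃ (a : ℕ) (B : ℝ), ∀ z : ℂ, |z.re| ≤ b → ‖F z‖ ≤ Real.exp (B * (1 + |z.im|) ^ a)
  ne : ∀ z : ℂ, b ≤ z.re → F z ≠ 0
  im : ∀ z : ℂ, b ≤ z.re → |(logDeriv F z).im| ≤ C
  low : ∀ z : ℂ, b ≤ z.re → 1 / 2 * Real.log z.re - C ≤ (logDeriv F z).re
  der : ∀ z : ℂ, b ≤ z.re → ‖deriv (logDeriv F) z‖ ≤ C / z.re

/-- derivative of the logarithm of the norm -/
lemma hasDerivAt_log_norm {f : ℝ → ℂ} {f' : ℂ} {t : ℝ} (h : HasDerivAt f f' t) (h0 : f t ≠ 0) :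
    HasDerivAt (fun s => Real.log ‖f s‖) ((f' / f t).re) t := by
  have h1 := h.norm_sq
  have h2 : ‖f t‖ ^ 2 ≠ 0 := by
    have := norm_pos_iff.2 h0
    positivity
  have h3 := (h1.log h2).const_mul (1 / 2 : ℝ)
  have e : (fun s => Real.log ‖f s‖) = fun s => (1 / 2 : ℝ) * Real.log (‖f s‖ ^ 2) := by
    funext s
    rw [Real.log_pow]
    push_cast
    ring
  rw [e]
  refine h3.congr_deriv ?_
  rw [Complex.div_re, ← Complex.normSq_eq_norm_sq] at *
  simp only [Complex.inner, Complex.mul_re, Complex.conj_re, Complex.conj_im]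
  field_simp
  ring

lemma poly_exp' (a : ℕ) (B c : ℝ) (hB : 0 ≤ B) (hc : 0 < c) : ∃ B' : ℝ, ∀ t : ℝ, 0 ≤ t →
    B * (1 + t) ^ a ≤ B' * Real.exp (c * t) := by
  refine ⟨B * (a.factorial / c ^ a * Real.exp c), fun t ht => ?_⟩
  have h1 := Real.pow_div_factorial_le_exp (c * (1 + t)) (by positivity) a
  have hf : (0 : ℝ) < a.factorial := by exact_mod_cast a.factorial_pos
  rw [div_le_iff₀ hf, mul_pow] at h1
  have h2 : (1 + t) ^ a ≤ a.factorial / c ^ a * Real.exp (c * (1 + t)) := by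
    rw [div_mul_eq_mul_div, le_div_iff₀ (by positivity)]
    linarith
  have h3 : Real.exp (c * (1 + t)) = Real.exp c * Real.exp (c * t) := by
    rw [← Real.exp_add]; congr 1; ring
  rw [h3] at h2
  calc B * (1 + t) ^ a ≤ B * (a.factorial / c ^ a * (Real.exp c * Real.exp (c * t))) := by gcongr
    _ = _ := by ring

namespace Cls

variable {b C : ℝ} {F : ℂ → ℂ} (h : Cls b C F)
include h

lemma fe_norm (z : ℂ) : ‖F (-z)‖ = ‖F z‖ := by
  rcases h.fe with h1 | h1 <;> rw [h1]
  rw [norm_neg]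

lemma norm_refl (x y : ℝ) : ‖F (-x + y * I)‖ = ‖F (x + y * I)‖ := by
  have e : (-x + y * I : ℂ) = -(conj (x + y * I : ℂ)) := by
    rw [map_add, map_mul, Complex.conj_ofReal, Complex.conj_ofReal, Complex.conj_I]; ring
  rw [e, h.fe_norm, h.cj, Complex.norm_conj]

lemma anal (z : ℂ) : AnalyticAt ℂ F z := h.diff.analyticAt z

lemma ld_anal {z : ℂ} (hz : b ≤ z.re) : AnalyticAt ℂ (logDeriv F) z :=
  (h.anal z).deriv.div (h.anal z) (h.ne z hz)

lemma hasDeriv_line {x : ℝ} (hx : b ≤ x) (y : ℝ) :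
    HasDerivAt (fun s : ℝ => Real.log ‖F (x + s * I)‖) (-(logDeriv F (x + y * I)).im) y := by
  have h1 : HasDerivAt (fun s : ℝ => F (x + s * I)) (deriv F (x + y * I) * I) y := by
    have h2 : HasDerivAt (fun s : ℝ => (x + s * I : ℂ)) I y := by
      have := ((Complex.ofRealCLM.hasDerivAt (x := y)).mul_const I).const_add (x : ℂ)
      simpa using this
    exact (h.diff (x + y * I)).hasDerivAt.comp y h2
  have h3 := hasDerivAt_log_norm h1 (h.ne _ (by simpa using hx))
  refine h3.congr_deriv ?_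
  rw [logDeriv_apply, show deriv F (x + y * I) * I / F (x + y * I) =
    deriv F (x + y * I) / F (x + y * I) * I by ring]
  simp

/-- Lipschitz bound of `log ‖F‖` along vertical lines -/
lemma line {x : ℝ} (hx : b ≤ x) (y y0 : ℝ) :
    ‖F (x + y * I)‖ ≤ ‖F (x + y0 * I)‖ * Real.exp (C * |y - y0|) := by
  have h1 := Convex.norm_image_sub_le_of_norm_hasDerivWithin_le (s := Set.univ)
    (f := fun s : ℝ => Real.log ‖F (x + s * I)‖) (f' := fun s => -(logDeriv F (x + s * I)).im)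
    (C := C) (x := y0) (y := y) (fun s _ => (h.hasDeriv_line hx s).hasDerivWithinAt)
    (fun s _ => by
      rw [Real.norm_eq_abs, abs_neg]
      exact h.im _ (by simpa using hx)) convex_univ (mem_univ _) (mem_univ _)
  rw [Real.norm_eq_abs, Real.norm_eq_abs] at h1
  have h2 := (abs_le.1 h1).2
  have p1 : 0 < ‖F (x + y * I)‖ := norm_pos_iff.2 (h.ne _ (by simpa using hx))
  have p2 : 0 < ‖F (x + y0 * I)‖ := norm_pos_iff.2 (h.ne _ (by simpa using hx))
  calc ‖F (x + y * I)‖ = Real.exp (Real.log ‖F (x + y * I)‖) := (Real.exp_log p1).symm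
    _ ≤ Real.exp (Real.log ‖F (x + y0 * I)‖ + C * |y - y0|) := by
        refine Real.exp_le_exp.2 ?_
        linarith
    _ = _ := by rw [Real.exp_add, Real.exp_log p2]

/-- the convexity bound in the strip -/
lemma strip {z : ℂ} (hz : |z.re| ≤ b) :
    ‖F z‖ ≤ Real.exp (C ^ 2 / 4 + b ^ 2) * ‖F (b + z.im * I)‖ := by
  have hb := h.hb
  have hb0 : 0 < b := by linarith
  obtain ⟨a, B, hB⟩ := h.fin
  set y0 := z.im with hy0
  set G : ℂ → ℂ := fun w => F w * cexp ((w - y0 * I) ^ 2) with hG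
  have hGd : Differentiable ℂ G := h.diff.mul (by fun_prop)
  have hnG : ∀ w : ℂ, ‖G w‖ = ‖F w‖ * Real.exp (w.re ^ 2 - (w.im - y0) ^ 2) := by
    intro w
    rw [hG]
    simp only
    rw [norm_mul, Complex.norm_exp]
    congr 2
    simp [sq]
  have hedge : ∀ w : ℂ, |w.re| = b →
      ‖G w‖ ≤ Real.exp (C ^ 2 / 4 + b ^ 2) * ‖F (b + y0 * I)‖ := by
    intro w hw
    have e1 : ‖F w‖ = ‖F (b + w.im * I)‖ := by
      rcases le_total 0 w.re with h0 | h0
      · rw [abs_of_nonneg h0] at hw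
        rw [← hw, Complex.re_add_im]
      · rw [abs_of_nonpos h0] at hw
        rw [← h.norm_refl b w.im, ← hw]
        congr 2
        push_cast
        rw [neg_neg, Complex.re_add_im]
    rw [hnG, e1]
    have e2 : w.re ^ 2 = b ^ 2 := by rw [← hw, sq_abs]
    rw [e2]
    calc ‖F (b + w.im * I)‖ * Real.exp (b ^ 2 - (w.im - y0) ^ 2)
        ≤ ‖F (b + y0 * I)‖ * Real.exp (C * |w.im - y0|) * Real.exp (b ^ 2 - (w.im - y0) ^ 2) := by
          gcongr
          exact h.line le_rfl _ _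
      _ = ‖F (b + y0 * I)‖ * Real.exp (C * |w.im - y0| + (b ^ 2 - (w.im - y0) ^ 2)) := by
          rw [mul_assoc, ← Real.exp_add]
      _ ≤ ‖F (b + y0 * I)‖ * Real.exp (C ^ 2 / 4 + b ^ 2) := by
          refine mul_le_mul_of_nonneg_left (Real.exp_le_exp.2 ?_) (norm_nonneg _)
          have := sq_nonneg (|w.im - y0| - C / 2)
          have e3 := sq_abs (w.im - y0)
          nlinarith
      _ = _ := by ring
  have hcl : closure (re ⁻¹' Set.Ioo (-b) b) = re ⁻¹' Set.Icc (-b) b := by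
    rw [Complex.closure_preimage_re, closure_Ioo (by linarith : -b ≠ b)]
  have key : ‖G z‖ ≤ Real.exp (C ^ 2 / 4 + b ^ 2) * ‖F (b + y0 * I)‖ := by
    refine PhragmenLindelof.vertical_strip (a := -b) (b := b) hGd.diffContOnCl ?_ ?_ ?_
      (abs_le.1 hz).1 (abs_le.1 hz).2
    · have hc : 0 < Real.pi / (b - -b) := div_pos Real.pi_pos (by linarith)
      obtain ⟨B', hB'⟩ := poly_exp' a (max B 0) (Real.pi / (b - -b) / 2) (le_max_right _ _)
        (by linarith)
      refine ⟨Real.pi / (b - -b) / 2, by linarith, B', ?_⟩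
      refine IsBigO.of_bound (Real.exp (b ^ 2)) ?_
      have hf2 : (re ⁻¹' Set.Ioo (-b) b) ∈ 𝓟 (re ⁻¹' Set.Ioo (-b) b) := mem_principal_self _
      filter_upwards [mem_inf_of_right hf2] with w hw
      have hw3 : -b < w.re ∧ w.re < b := hw
      rw [Real.norm_of_nonneg (Real.exp_pos _).le, hnG]
      have h5 := hB w (abs_le.2 ⟨hw3.1.le, hw3.2.le⟩)
      have h6 : ‖F w‖ ≤ Real.exp (B' * Real.exp (Real.pi / (b - -b) / 2 * |w.im|)) := by
        refine h5.trans (Real.exp_le_exp.2 (le_trans ?_ (hB' _ (abs_nonneg _))))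
        gcongr
        exact le_max_left _ _
      have h7 : Real.exp (w.re ^ 2 - (w.im - y0) ^ 2) ≤ Real.exp (b ^ 2) := by
        refine Real.exp_le_exp.2 ?_
        have : w.re ^ 2 ≤ b ^ 2 := sq_le_sq' hw3.1.le hw3.2.le
        nlinarith [sq_nonneg (w.im - y0)]
      rw [mul_comm]
      exact mul_le_mul h7 h6 (norm_nonneg _) (Real.exp_pos _).le
    · intro w hw
      exact hedge w (by rw [hw, abs_neg, abs_of_pos hb0])
    · intro w hw
      exact hedge w (by rw [hw, abs_of_pos hb0])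
  refine le_trans ?_ key
  rw [hnG]
  have : (1 : ℝ) ≤ Real.exp (z.re ^ 2 - (z.im - y0) ^ 2) := by
    rw [hy0, sub_self]
    refine Real.one_le_exp ?_
    have := sq_nonneg z.re
    linarith
  exact le_mul_of_one_le_right (norm_nonneg _) this

end Cls

end

end Pool.Agent.Helper68.UL
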