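import Pool.Agent.Helper68.UL.Cau
import Pool.Agent.Helper68.HM.Sq

set_option autoImplicit false
set_option maxHeartbeats 1000000

/-! The criterion of Csordas and Varga for even or odd entire functions of order less than two. -/

open Complex Filter Topology Metric
open scoped ComplexConjugate

namespace Pool.Agent.Helper68.UL

open Pool.Agent.Helper75.Jen (cpow_half_sq)
open Pool.Agent.Helper68.HM (SQ SQ_eq SQ_sq SQ_diff SQ_taylor taylor_nonneg)

noncomputable section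

lemma SQ_conj {f : ℂ → ℂ} (he : ∀ w, f (-w) = f w) (hc : ∀ w, f (conj w) = conj (f w))
    (z : ℂ) : SQ f (conj z) = conj (SQ f z) := by
  have h1 : (conj (z ^ (1 / 2 : ℂ))) ^ 2 = conj z := by
    rw [← map_pow, cpow_half_sq]
  rw [SQ_eq he h1, hc]
  rfl

lemma Ph_conj' {F : ℂ → ℂ} (hc : ∀ z, F (conj z) = conj (F z)) (t : ℝ) (u : ℂ) :
    Ph F t (conj u) = conj (Ph F t u) := by
  unfold Ph
  have e1 : conj u + t * I = conj (u - t * I) := by
    rw [map_sub, map_mul, Complex.conj_ofReal, Complex.conj_I]; ring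
  have e2 : conj u - t * I = conj (u + t * I) := by
    rw [map_add, map_mul, Complex.conj_ofReal, Complex.conj_I]; ring
  rw [e1, e2, hc, hc, map_mul]
  ring

variable {F : ℂ → ℂ} (hF : Differentiable ℂ F) (hc : ∀ z, F (conj z) = conj (F z))
  (hfe : (∀ z, F (-z) = F z) ∨ (∀ z, F (-z) = -F z))

include hF hc hfe

lemma Lag_SQ (n : ℕ) (t : ℝ) : Lag F n t =
    ((2 * n).factorial : ℝ) / (n.factorial : ℝ) * (iteratedDeriv n (SQ (Ph F t)) 0).re := by
  have h1 := (real_iter (Ph_diff hF t) (h := fun u : ℝ => ‖F (u + t * I)‖ ^ 2)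
    (fun u => Ph_real hc t u) (2 * n)).1 0
  have h2 := SQ_taylor (Ph_diff hF t) (Ph_even hfe t) n
  have hk : (n.factorial : ℂ) ≠ 0 := by exact_mod_cast n.factorial_ne_zero
  have hk2 : ((2 * n).factorial : ℂ) ≠ 0 := by exact_mod_cast (2 * n).factorial_ne_zero
  have h3 : ((Lag F n t : ℝ) : ℂ) = ((((2 * n).factorial : ℝ) / (n.factorial : ℝ) : ℝ) : ℂ) *
      iteratedDeriv n (SQ (Ph F t)) 0 := by
    unfold Lag
    rw [h1, h2, Complex.ofReal_zero]
    push_cast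
    field_simp
  have h4 := congrArg Complex.re h3
  rwa [Complex.ofReal_re, Complex.re_ofReal_mul] at h4

/-- if all Laguerre expressions at the height `t` are nonnegative, there is no zero off the line -/
lemma no_zero {t : ℝ} (h0 : ∀ n, 0 ≤ Lag F n t) {x : ℝ} (hx : 0 < x) (hz : F (x + t * I) = 0) :
    ∀ u : ℝ, F (u + t * I) = 0 := by
  have hcoef : ∀ n, 0 ≤ (iteratedDeriv n (SQ (Ph F t)) 0).re := by
    intro n
    have h1 := h0 n
    rw [Lag_SQ hF hc hfe] at h1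
    exact (mul_nonneg_iff_of_pos_left (by positivity)).1 h1
  have hser : ∀ y : ℝ, HasSum (fun n : ℕ => (iteratedDeriv n (SQ (Ph F t)) 0).re /
      (n.factorial : ℝ) * y ^ n) (SQ (Ph F t) (y : ℂ)).re := by
    intro y
    have h := Complex.hasSum_taylorSeries_of_entire (SQ_diff (Ph_diff hF t) (Ph_even hfe t)) 0 (y : ℂ)
    have h2 := Complex.hasSum_re h
    refine h2.congr_fun ?_
    intro n
    have : ((n.factorial : ℂ)⁻¹ • ((y : ℂ) - 0) ^ n • iteratedDeriv n (SQ (Ph F t)) 0) =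
        (((n.factorial : ℝ)⁻¹ * y ^ n : ℝ) : ℂ) * iteratedDeriv n (SQ (Ph F t)) 0 := by
      simp only [smul_eq_mul, sub_zero]
      push_cast
      ring
    rw [this, Complex.re_ofReal_mul]
    ring
  have hval : ∀ u : ℝ, (SQ (Ph F t) ((u ^ 2 : ℝ) : ℂ)).re = ‖F (u + t * I)‖ ^ 2 := by
    intro u
    have h1 : SQ (Ph F t) ((u ^ 2 : ℝ) : ℂ) = Ph F t u :=
      SQ_eq (Ph_even hfe t) (by push_cast; rfl)
    rw [h1, ← Ph_real hc, Complex.ofReal_re]
  have h1 := hser (x ^ 2)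
  rw [hval, hz, norm_zero, zero_pow two_ne_zero] at h1
  have hterm0 : ∀ n : ℕ, 0 ≤ (iteratedDeriv n (SQ (Ph F t)) 0).re / (n.factorial : ℝ) * (x ^ 2) ^ n :=
    fun n => mul_nonneg (div_nonneg (hcoef n) (Nat.cast_nonneg _)) (by positivity)
  have h2 := (hasSum_zero_iff_of_nonneg hterm0).1 h1
  have h3 : ∀ n, (iteratedDeriv n (SQ (Ph F t)) 0).re = 0 := by
    intro n
    have h4 := congrFun h2 n
    simp only [Pi.zero_apply] at h4
    have h5 : (x ^ 2) ^ n ≠ 0 := by positivity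
    have h6 : (n.factorial : ℝ) ≠ 0 := by positivity
    rcases mul_eq_zero.1 h4 with h7 | h7
    · rcases div_eq_zero_iff.1 h7 with h8 | h8
      · exact h8
      · exact absurd h8 h6
    · exact absurd h7 h5
  intro u
  have h4 := hser (u ^ 2)
  rw [hval] at h4
  have h5 : HasSum (fun n : ℕ => (iteratedDeriv n (SQ (Ph F t)) 0).re / (n.factorial : ℝ) *
      (u ^ 2) ^ n) 0 := by
    have : (fun n : ℕ => (iteratedDeriv n (SQ (Ph F t)) 0).re / (n.factorial : ℝ) * (u ^ 2) ^ n) =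
        fun _ => 0 := by
      funext n
      rw [h3 n, zero_div, zero_mul]
    rw [this]
    exact hasSum_zero
  have h6 := h4.unique h5
  exact norm_eq_zero.1 (pow_eq_zero_iff two_ne_zero |>.1 h6)

lemma SQ_growth {C : ℝ} (hC : 0 ≤ C)
    (hgr : ∀ z, ‖F z‖ ≤ Real.exp (C * (1 + ‖z‖) ^ (6 / 5 : ℝ))) (t : ℝ) :
    ∀ z, ‖SQ (Ph F t) z‖ ≤
      Real.exp (2 * (C * (3 * (1 + t ^ 2)) ^ (3 / 5 : ℝ)) * (1 + ‖z‖) ^ (3 / 5 : ℝ)) := by
  intro z
  set w := z ^ (1 / 2 : ℂ) with hw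
  have hz : ‖z‖ = ‖w‖ ^ 2 := by rw [← norm_pow, cpow_half_sq]
  have key : ∀ v : ℂ, ‖v‖ = |t| → ‖F (w + v)‖ ≤
      Real.exp (C * (3 * (1 + t ^ 2)) ^ (3 / 5 : ℝ) * (1 + ‖z‖) ^ (3 / 5 : ℝ)) := by
    intro v hv
    refine (hgr _).trans (Real.exp_le_exp.2 ?_)
    rw [mul_assoc]
    refine mul_le_mul_of_nonneg_left ?_ hC
    rw [← Real.mul_rpow (by positivity) (by positivity)]
    have e1 : (1 + ‖w + v‖) ^ (6 / 5 : ℝ) = ((1 + ‖w + v‖) ^ 2) ^ (3 / 5 : ℝ) := by
      rw [← Real.rpow_natCast, ← Real.rpow_mul (by positivity)]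
      norm_num
    rw [e1]
    refine Real.rpow_le_rpow (by positivity) ?_ (by norm_num)
    rw [hz]
    have h1 : 1 + ‖w + v‖ ≤ 1 + ‖w‖ + |t| := by
      rw [← hv]
      have := norm_add_le w v
      linarith
    have h0 := abs_nonneg t
    have hw0 := norm_nonneg w
    have h2 : (1 + ‖w + v‖) ^ 2 ≤ (1 + ‖w‖ + |t|) ^ 2 :=
      pow_le_pow_left₀ (by positivity) h1 2
    have h3 := sq_abs t
    nlinarith [sq_nonneg (1 - ‖w‖), sq_nonneg (1 - |t|), sq_nonneg (‖w‖ - |t|),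
      mul_nonneg (sq_nonneg ‖w‖) (sq_nonneg t)]
  have e : SQ (Ph F t) z = F (w + t * I) * F (w + -(t * I)) := by
    change Ph F t w = _
    unfold Ph
    rw [sub_eq_add_neg]
  have hn : ‖(t : ℂ) * I‖ = |t| := by
    rw [norm_mul, Complex.norm_I, mul_one, Complex.norm_real, Real.norm_eq_abs]
  rw [e, norm_mul]
  calc ‖F (w + t * I)‖ * ‖F (w + -(t * I))‖ ≤
        Real.exp (C * (3 * (1 + t ^ 2)) ^ (3 / 5 : ℝ) * (1 + ‖z‖) ^ (3 / 5 : ℝ)) *
        Real.exp (C * (3 * (1 + t ^ 2)) ^ (3 / 5 : ℝ) * (1 + ‖z‖) ^ (3 / 5 : ℝ)) :=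
        mul_le_mul (key _ hn) (key _ (by rw [norm_neg, hn])) (norm_nonneg _) (Real.exp_pos _).le
    _ = _ := by rw [← Real.exp_add]; congr 1; ring

/-- **The criterion.** -/
theorem crit {C : ℝ} (hC : 0 ≤ C) (hgr : ∀ z, ‖F z‖ ≤ Real.exp (C * (1 + ‖z‖) ^ (6 / 5 : ℝ)))
    {b : ℝ} (hb : ∀ z : ℂ, b ≤ z.re → F z ≠ 0) :
    (∀ z, F z = 0 → z.re = 0) ↔ ∀ (t : ℝ) (n : ℕ), 0 ≤ Lag F n t := by
  constructor
  · intro hz t n
    rw [Lag_SQ hF hc hfe]
    refine mul_nonneg (by positivity) ?_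
    have h1 : 0 < (SQ (Ph F t) 1).re := by
      have e1 : SQ (Ph F t) 1 = Ph F t ((1 : ℝ) : ℂ) := SQ_eq (Ph_even hfe t) (by norm_num)
      rw [e1, ← Ph_real hc, Complex.ofReal_re]
      have h2 : F (((1 : ℝ) : ℂ) + t * I) ≠ 0 := by
        intro h0
        have := hz _ h0
        simp at this
      have := norm_pos_iff.2 h2
      positivity
    refine (taylor_nonneg (SQ_diff (Ph_diff hF t) (Ph_even hfe t))
      (SQ_conj (Ph_even hfe t) (Ph_conj' hc t)) h1 ?_ ?_ (SQ_growth hF hc hfe hC hgr t) n).1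
    · intro z hz0
      set w := z ^ (1 / 2 : ℂ) with hw
      have hzw : z = w ^ 2 := (cpow_half_sq z).symm
      have h2 : F (w + t * I) * F (w - t * I) = 0 := hz0
      have hre : w.re = 0 := by
        rcases mul_eq_zero.1 h2 with h3 | h3
        · simpa using hz _ h3
        · simpa using hz _ h3
      rw [hzw, sq, Complex.mul_re, hre]
      nlinarith [sq_nonneg w.im]
    · positivity
  · intro h0 z hz
    by_contra hre
    -- a zero with positive real part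
    obtain ⟨v, hv, hvpos⟩ : ∃ v : ℂ, F v = 0 ∧ 0 < v.re := by
      rcases lt_or_gt_of_ne hre with h2 | h2
      · refine ⟨-z, ?_, by rw [neg_re]; linarith⟩
        rcases hfe with h3 | h3 <;> rw [h3, hz]
        simp
      · exact ⟨z, hz, h2⟩
    have h3 : ((v.re : ℝ) : ℂ) + (v.im : ℝ) * I = v := Complex.re_add_im v
    have h4 := no_zero hF hc hfe (h0 v.im) hvpos (by rw [h3]; exact hv) b
    exact hb _ (by simp) h4

end

end Pool.Agent.Helper68.UL
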