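import Pool.Agent.Helper68.UL.Grow

set_option autoImplicit false
set_option maxHeartbeats 1000000

/-! Tempered Euler products. -/

open Complex Filter Topology Metric Set
open scoped ComplexConjugate

namespace Pool.Agent.Helper68.UL

noncomputable section

/-- tempered Euler products of degree `m` and weight `2w` -/
def Eul (m : ℕ) (w : ℝ) (L : ℂ → ℂ) : Prop :=
  ∃ α : Nat.Primes → Fin m → ℂ, (∀ p j, ‖α p j‖ ≤ ((p : ℕ) : ℝ) ^ w) ∧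
    ∀ s : ℂ, w + 1 < s.re →
      HasProd (fun p : Nat.Primes => ∏ j, (1 - α p j * ((p : ℕ) : ℂ) ^ (-s))⁻¹) (L s)

lemma Eul.bound {m : ℕ} {w : ℝ} {L : ℂ → ℂ} (h : Eul m w L) {x : ℝ} (hx : 1 < x) {s : ℂ}
    (hs : w + x ≤ s.re) :
    (‖riemannZeta x‖ ^ m)⁻¹ ≤ ‖L s‖ ∧ ‖L s‖ ≤ ‖riemannZeta x‖ ^ m := by
  obtain ⟨α, hα, hL⟩ := h
  have hz := riemannZeta_eulerProduct_hasProd (s := (x : ℂ)) (by rw [ofReal_re]; exact hx)
  have hLs := hL s (by linarith)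
  -- the local factors
  have hloc : ∀ (p : Nat.Primes) (j : Fin m),
      ‖(1 - α p j * ((p : ℕ) : ℂ) ^ (-s))⁻¹‖ ≤ ‖(1 - ((p : ℕ) : ℂ) ^ (-(x : ℂ)))⁻¹‖ ∧
      ‖(1 - ((p : ℕ) : ℂ) ^ (-(x : ℂ)))⁻¹‖⁻¹ ≤ ‖(1 - α p j * ((p : ℕ) : ℂ) ^ (-s))⁻¹‖ := by
    intro p j
    have hp2 : 2 ≤ (p : ℕ) := p.2.two_le
    have hp0 : 0 < (p : ℕ) := by omega
    have hpR : (0 : ℝ) < ((p : ℕ) : ℝ) := by exact_mod_cast hp0
    have hp1R : (1 : ℝ) < ((p : ℕ) : ℝ) := by exact_mod_cast (by omega : 1 < (p : ℕ))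
    set y : ℝ := ((p : ℕ) : ℝ) ^ (-x) with hy
    have hy0 : 0 < y := Real.rpow_pos_of_pos hpR _
    have hy1 : y < 1 := by
      rw [hy]
      exact Real.rpow_lt_one_of_one_lt_of_neg hp1R (by linarith)
    have hyc : ((p : ℕ) : ℂ) ^ (-(x : ℂ)) = (y : ℂ) := by
      rw [hy, Complex.ofReal_cpow hpR.le]
      push_cast
      rfl
    have hb : ‖α p j * ((p : ℕ) : ℂ) ^ (-s)‖ ≤ y := by
      rw [norm_mul, Complex.norm_natCast_cpow_of_pos hp0, neg_re]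
      calc ‖α p j‖ * ((p : ℕ) : ℝ) ^ (-s.re) ≤ ((p : ℕ) : ℝ) ^ w * ((p : ℕ) : ℝ) ^ (-s.re) := by
            gcongr
            exact hα p j
        _ = ((p : ℕ) : ℝ) ^ (w + -s.re) := (Real.rpow_add hpR _ _).symm
        _ ≤ y := Real.rpow_le_rpow_of_exponent_le hp1R.le (by linarith)
    have h1y : ‖(1 - ((p : ℕ) : ℂ) ^ (-(x : ℂ)))‖ = 1 - y := by
      rw [hyc, ← Complex.ofReal_one, ← Complex.ofReal_sub, Complex.norm_real,
        Real.norm_of_nonneg (by linarith)]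
    have hlow : 1 - y ≤ ‖1 - α p j * ((p : ℕ) : ℂ) ^ (-s)‖ := by
      have := norm_sub_norm_le (1 : ℂ) (α p j * ((p : ℕ) : ℂ) ^ (-s))
      rw [norm_one] at this
      linarith
    have hup : ‖1 - α p j * ((p : ℕ) : ℂ) ^ (-s)‖ ≤ (1 - y)⁻¹ := by
      have h1 := norm_sub_le (1 : ℂ) (α p j * ((p : ℕ) : ℂ) ^ (-s))
      rw [norm_one] at h1
      have h2 : 1 + y ≤ (1 - y)⁻¹ := by
        rw [le_inv_comm₀ (by linarith) (by linarith), ← one_div, le_div_iff₀ (by linarith)]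
        nlinarith
      linarith
    rw [norm_inv, norm_inv, h1y, inv_inv]
    constructor
    · exact inv_anti₀ (by linarith) hlow
    · rw [le_inv_comm₀ (by linarith) (by linarith)]
      exact hup
  have hfin : ∀ S : Finset Nat.Primes,
      (‖∏ p ∈ S, (1 - ((p : ℕ) : ℂ) ^ (-(x : ℂ)))⁻¹‖ ^ m)⁻¹ ≤
        ‖∏ p ∈ S, ∏ j, (1 - α p j * ((p : ℕ) : ℂ) ^ (-s))⁻¹‖ ∧
      ‖∏ p ∈ S, ∏ j, (1 - α p j * ((p : ℕ) : ℂ) ^ (-s))⁻¹‖ ≤
        ‖∏ p ∈ S, (1 - ((p : ℕ) : ℂ) ^ (-(x : ℂ)))⁻¹‖ ^ m := by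
    intro S
    simp only [norm_prod]
    rw [← Finset.prod_pow, ← Finset.prod_inv_distrib]
    constructor
    · refine Finset.prod_le_prod (fun p _ => by positivity) fun p _ => ?_
      calc (‖(1 - ((p : ℕ) : ℂ) ^ (-(x : ℂ)))⁻¹‖ ^ m)⁻¹ =
            ∏ _j : Fin m, ‖(1 - ((p : ℕ) : ℂ) ^ (-(x : ℂ)))⁻¹‖⁻¹ := by
            rw [Finset.prod_const, Finset.card_univ, Fintype.card_fin, inv_pow]
        _ ≤ _ := Finset.prod_le_prod (fun j _ => by positivity) fun j _ => (hloc p j).2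
    · refine Finset.prod_le_prod (fun p _ => by positivity) fun p _ => ?_
      calc ∏ j, ‖(1 - α p j * ((p : ℕ) : ℂ) ^ (-s))⁻¹‖ ≤
            ∏ _j : Fin m, ‖(1 - ((p : ℕ) : ℂ) ^ (-(x : ℂ)))⁻¹‖ :=
            Finset.prod_le_prod (fun j _ => norm_nonneg _) fun j _ => (hloc p j).1
        _ = _ := by rw [Finset.prod_const, Finset.card_univ, Fintype.card_fin]
  have hzn : riemannZeta (x : ℂ) ≠ 0 := riemannZeta_ne_zero_of_one_lt_re (by rwa [ofReal_re])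
  have t1 : Tendsto (fun S : Finset Nat.Primes =>
      ‖∏ p ∈ S, (1 - ((p : ℕ) : ℂ) ^ (-(x : ℂ)))⁻¹‖ ^ m) atTop (𝓝 (‖riemannZeta x‖ ^ m)) :=
    (Tendsto.norm hz).pow m
  have t2 : Tendsto (fun S : Finset Nat.Primes =>
      ‖∏ p ∈ S, ∏ j, (1 - α p j * ((p : ℕ) : ℂ) ^ (-s))⁻¹‖) atTop (𝓝 ‖L s‖) := Tendsto.norm hLs
  have t3 := t1.inv₀ (pow_ne_zero _ (norm_ne_zero_iff.2 hzn))
  exact ⟨le_of_tendsto_of_tendsto' t3 t2 fun S => (hfin S).1,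
    le_of_tendsto_of_tendsto' t2 t1 fun S => (hfin S).2⟩

end

end Pool.Agent.Helper68.UL
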