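import Pool.Agent.Helper68.UL.Comp
import Pool.Agent.Helper68.UL.Crit
import Pool.Agent.Helper40.HW.Bd

set_option autoImplicit false
set_option maxHeartbeats 1000000

/-! Growth of completed L-functions; the criterion for them. -/

open Complex Filter Topology Metric Set
open scoped ComplexConjugate

namespace Pool.Agent.Helper68.UL

open Pool.Agent.Helper40.HW (Go Pb)

noncomputable section

namespace CL

variable {m k : ℕ} {β K c A : ℝ} {μ : Fin m → ℝ} {ρ : Fin k → ℂ} {ε : ℂ} {L F : ℂ → ℂ}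
variable (h : CL β K c A μ ρ ε L F)
include h

lemma growth : ∃ C : ℝ, 0 ≤ C ∧ ∀ z, ‖F (c + z)‖ ≤ Real.exp (C * (1 + ‖z‖) ^ (6 / 5 : ℝ)) := by
  obtain ⟨C1, hC1, hcls⟩ := CL.cls m k (β := β) (K := K) h.β1 one_pos le_rfl
  have hcl := (hcls c A μ ρ ε L F h).1
  set b : ℝ := β + 1 / 2 with hb
  have hβ := h.β1
  have hb0 : 0 < b := by linarith
  -- to the right
  have hright : Go {z : ℂ | b ≤ z.re} (fun z => F (c + z)) := by
    have h1 : Go {z : ℂ | b ≤ z.re} (fun z => Qf c A μ ρ z * L (c + z)) := by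
      have hG : Go {z : ℂ | b ≤ z.re} (fun z => ∏ j, Gammaℝ (z + ((c + μ j : ℝ) : ℂ))) :=
        Go.prod _ _ fun j _ => Go.gam (c + μ j) b (by linarith [h.μ0 j])
      have hP : Pb {z : ℂ | b ≤ z.re} (fun z => ∏ i, (z + ((c : ℂ) - ρ i))) := by
        refine Pb.prod _ _ fun i _ => ?_
        exact (Pb.lin 1 ((c : ℂ) - ρ i)).of_le fun z _ => by rw [one_mul]
      have hE : Go {z : ℂ | b ≤ z.re} (fun z => cexp (((Real.log A / 2 : ℝ) : ℂ) * (z + c))) := by
        have e : (fun z : ℂ => cexp (((Real.log A / 2 : ℝ) : ℂ) * (z + c))) =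
            fun z => cexp (((Real.log A / 2 : ℝ) : ℂ) * z) * cexp (((Real.log A / 2 : ℝ) : ℂ) * c) := by
          funext z
          rw [← Complex.exp_add]
          congr 1
          ring
        rw [e]
        exact (Go.exp_lin _).mul (Pb.bdd (K := ‖cexp (((Real.log A / 2 : ℝ) : ℂ) * c)‖)
          fun _ _ => le_rfl).go
      have hL : Pb {z : ℂ | b ≤ z.re} (fun z => L (c + z)) := by
        refine Pb.bdd (K := K) fun z hz => ?_
        have hz' : b ≤ z.re := hz
        exact (h.bd (c + z) (by rw [add_re, ofReal_re]; linarith)).2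
      exact (hP.go.mul (hE.mul hG)).mul hL.go
    obtain ⟨C, hC, hh⟩ := h1
    refine ⟨C, hC, fun z hz => ?_⟩
    have hz' : b ≤ z.re := hz
    have h2 := hh z hz
    simp only at h2 ⊢
    rw [h.eqQ (by linarith : β < z.re)]
    exact h2
  obtain ⟨C, hC, hr⟩ := hright
  set D : ℝ := C1 ^ 2 / 4 + b ^ 2 with hD
  have hD0 : 0 ≤ D := by positivity
  set C' : ℝ := D + C * (1 + b) ^ (6 / 5 : ℝ) with hC'
  have hC'0 : 0 ≤ C' := by positivity
  have h1b : 1 ≤ (1 + b) ^ (6 / 5 : ℝ) := Real.one_le_rpow (by linarith) (by norm_num)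
  refine ⟨C', hC'0, fun z => ?_⟩
  have hx1 : 1 ≤ (1 + ‖z‖) ^ (6 / 5 : ℝ) :=
    Real.one_le_rpow (by linarith [norm_nonneg z]) (by norm_num)
  have hbig : ∀ w : ℂ, ‖w‖ ≤ b + ‖z‖ → b ≤ w.re →
      ‖F (c + w)‖ ≤ Real.exp (C * (1 + b) ^ (6 / 5 : ℝ) * (1 + ‖z‖) ^ (6 / 5 : ℝ)) := by
    intro w hw hwre
    refine (hr w hwre).trans (Real.exp_le_exp.2 ?_)
    rw [mul_assoc, ← Real.mul_rpow (by linarith) (by positivity)]
    refine mul_le_mul_of_nonneg_left (Real.rpow_le_rpow (by positivity) ?_ (by norm_num)) hC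
    have := norm_nonneg z
    nlinarith
  have hle : ∀ w : ℂ, ‖w‖ = ‖z‖ → 0 ≤ w.re →
      ‖F (c + w)‖ ≤ Real.exp (C' * (1 + ‖z‖) ^ (6 / 5 : ℝ)) := by
    intro w hw hw0
    rcases le_total b w.re with h2 | h2
    · refine (hbig w (by rw [hw]; linarith) h2).trans (Real.exp_le_exp.2 ?_)
      rw [hC', add_mul]
      have : 0 ≤ D * (1 + ‖z‖) ^ (6 / 5 : ℝ) := by positivity
      linarith
    · have h3 := hcl.strip (z := w) (by rw [abs_of_nonneg hw0]; exact h2)
      have h4 : ‖((β + 1 / 2 : ℝ) : ℂ) + w.im * I‖ ≤ b + ‖z‖ := by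
        refine (norm_add_le _ _).trans ?_
        rw [Complex.norm_real, norm_mul, Complex.norm_I, mul_one, Complex.norm_real,
          Real.norm_of_nonneg (by linarith), Real.norm_eq_abs]
        have := Complex.abs_im_le_norm w
        rw [hw] at this
        linarith
      have h5 := hbig (((β + 1 / 2 : ℝ) : ℂ) + w.im * I) h4 (by simp [hb])
      calc ‖F (c + w)‖ ≤ Real.exp D * ‖F (c + (((β + 1 / 2 : ℝ) : ℂ) + w.im * I))‖ := h3
        _ ≤ Real.exp D * Real.exp (C * (1 + b) ^ (6 / 5 : ℝ) * (1 + ‖z‖) ^ (6 / 5 : ℝ)) := by gcongr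
        _ ≤ _ := by
          rw [← Real.exp_add]
          refine Real.exp_le_exp.2 ?_
          rw [hC', add_mul]
          nlinarith
  rcases le_total 0 z.re with h2 | h2
  · exact hle z rfl h2
  · have h3 := hle (-z) (norm_neg z) (by rw [neg_re]; linarith)
    have h4 := hcl.fe_norm z
    rw [← h4]
    exact h3

/-- the criterion for completed L-functions -/
lemma crit : (∀ s, F s = 0 → s.re = c) ↔
    ∀ (t : ℝ) (n : ℕ), 0 ≤ Lag (fun z => F (c + z)) n t := by
  obtain ⟨C1, hC1, hcls⟩ := CL.cls m k (β := β) (K := K) h.β1 one_pos le_rfl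
  have hcl := (hcls c A μ ρ ε L F h).1
  obtain ⟨C, hC, hg⟩ := h.growth
  rw [← UL.crit hcl.diff hcl.cj hcl.fe hC hg hcl.ne]
  constructor
  · intro h1 z hz
    have := h1 _ hz
    rw [add_re, ofReal_re] at this
    linarith
  · intro h1 s hs
    have := h1 (s - c) (by simpa using hs)
    rw [sub_re, ofReal_re] at this
    linarith

end CL

end

end Pool.Agent.Helper68.UL
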