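import Pool.Agent.Helper68.UL.Arc

set_option autoImplicit false
set_option maxHeartbeats 1000000

/-! The abstract theorem on the Laguerre inequalities. -/

open Complex MeasureTheory Set Filter Topology Asymptotics
open scoped ComplexConjugate

namespace Pool.Agent.Helper68.UL

noncomputable section

lemma sad_neg (n θ : ℝ) : sad n (-θ) = conj (sad n θ) := by
  unfold sad
  rw [← Complex.exp_conj, map_mul, map_mul, map_sub, map_sub, ← Complex.exp_conj, map_mul, map_one,
    Complex.conj_ofReal, Complex.conj_ofReal, Complex.conj_I]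
  have : conj (2 : ℂ) = 2 := map_ofNat (starRingEnd ℂ) 2
  rw [this]
  congr 2
  push_cast
  ring_nf

lemma Ph_conj {F : ℂ → ℂ} (hc : ∀ z, F (conj z) = conj (F z)) (t : ℝ) (u : ℂ) :
    Ph F t (conj u) = conj (Ph F t u) := by
  unfold Ph
  have e1 : conj u + t * I = conj (u - t * I) := by
    rw [map_sub, map_mul, Complex.conj_ofReal, Complex.conj_I]; ring
  have e2 : conj u - t * I = conj (u + t * I) := by
    rw [map_add, map_mul, Complex.conj_ofReal, Complex.conj_I]; ring
  rw [e1, e2, hc, hc, map_mul]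
  ring

lemma ig_neg {F : ℂ → ℂ} (hc : ∀ z, F (conj z) = conj (F z)) (t : ℝ) (n : ℕ) (r θ : ℝ) :
    ig (Ph F t) n r (-θ) = conj (ig (Ph F t) n r θ) := by
  unfold ig
  rw [map_mul, ← Ph_conj hc, ← Complex.exp_conj]
  congr 2
  · rw [map_mul, ← Complex.exp_conj, map_mul, Complex.conj_ofReal, Complex.conj_ofReal, Complex.conj_I]
    push_cast
    ring_nf
  · rw [map_neg, map_mul, map_mul, map_mul, Complex.conj_ofReal, Complex.conj_I, Complex.conj_natCast]
    have : conj (2 : ℂ) = 2 := map_ofNat (starRingEnd ℂ) 2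
    rw [this]
    push_cast
    ring

/-- an exponentially small bound -/
lemma exp_small (K0 c : ℝ) (hc : 0 < c) : ∃ N : ℝ, ∀ n : ℝ, N ≤ n →
    Real.exp (K0 - c * n) * Real.sqrt n ≤ 1 / 100 := by
  have h1 : Tendsto (fun n : ℝ => n ^ 1 * Real.exp (-c * n)) atTop (𝓝 0) := by
    have := Real.tendsto_pow_mul_exp_neg_atTop_nhds_zero 1
    have h2 := this.comp (tendsto_id.const_mul_atTop hc)
    have h3 := h2.const_mul (1 / c)
    rw [mul_zero] at h3
    refine h3.congr fun n => ?_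
    simp only [Function.comp, id, pow_one]
    rw [show -(c * n) = -c * n by ring]
    field_simp
  have h2 : ∀ᶠ n : ℝ in atTop, n ^ 1 * Real.exp (-c * n) < 1 / 100 * Real.exp (-K0) :=
    h1.eventually_lt_const (by positivity)
  obtain ⟨N, hN⟩ := eventually_atTop.1 (h2.and (eventually_ge_atTop 1))
  refine ⟨N, fun n hn => ?_⟩
  obtain ⟨h3, h4⟩ := hN n hn
  rw [pow_one] at h3
  have h5 : Real.sqrt n ≤ n := by
    rw [Real.sqrt_le_left (by linarith)]
    nlinarith
  calc Real.exp (K0 - c * n) * Real.sqrt n ≤ Real.exp (K0 - c * n) * n := by gcongr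
    _ = Real.exp K0 * (n * Real.exp (-c * n)) := by
        rw [sub_eq_add_neg, Real.exp_add, show -(c * n) = -c * n by ring]; ring
    _ ≤ Real.exp K0 * (1 / 100 * Real.exp (-K0)) := by gcongr
    _ = 1 / 100 * (Real.exp K0 * Real.exp (-K0)) := by ring
    _ = 1 / 100 := by rw [← Real.exp_add, add_neg_cancel, Real.exp_zero, mul_one]

/-- existence and size of the saddle point -/
lemma exists_saddle {b C : ℝ} {F : ℂ → ℂ} (h : Cls b C F) {r0 P0 t n : ℝ} (hr0 : b < r0)
    (hP0 : 0 < P0) (hn : P0 * Real.exp (2 * (P0 + C)) ≤ n)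
    (hs : r0 * (logDeriv F (r0 + t * I)).re ≤ n) :
    ∃ r : ℝ, r0 ≤ r ∧ r * (logDeriv F (r + t * I)).re = n ∧ P0 * r ≤ n := by
  have hb := h.hb
  have hC := h.hC
  have hn0 : 0 < n := lt_of_lt_of_le (by positivity) hn
  set f : ℝ → ℝ := fun r => r * (logDeriv F (r + t * I)).re with hf
  set R : ℝ := max r0 (max (Real.exp (2 * C + 2)) n) with hR
  have hR1 : r0 ≤ R := le_max_left _ _
  have hR2 : Real.exp (2 * C + 2) ≤ R := (le_max_left _ _).trans (le_max_right _ _)
  have hR3 : n ≤ R := (le_max_right _ _).trans (le_max_right _ _)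
  have hcont : ContinuousOn f (Icc r0 R) := by
    intro r hr
    have hre : b ≤ (r + t * I : ℂ).re := by simpa using hr0.le.trans hr.1
    have h1 : ContinuousAt (fun r : ℝ => logDeriv F (r + t * I)) r :=
      ContinuousAt.comp (g := logDeriv F) (f := fun r : ℝ => (r + t * I : ℂ))
        (h.ld_anal hre).continuousAt (by fun_prop)
    exact (continuousAt_id.mul (Complex.continuous_re.continuousAt.comp h1)).continuousWithinAt
  have hfR : n ≤ f R := by
    have hlow := h.low (R + t * I) (by simpa using hr0.le.trans hR1)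
    have e : (R + t * I : ℂ).re = R := by simp
    rw [e] at hlow
    have hlog : 2 * C + 2 ≤ Real.log R := by
      rw [Real.le_log_iff_exp_le (by linarith [Real.exp_pos (2 * C + 2)])]
      exact hR2
    have h1 : 1 ≤ (logDeriv F (R + t * I)).re := by linarith
    calc n ≤ R * 1 := by linarith
      _ ≤ R * (logDeriv F (R + t * I)).re := by
          refine mul_le_mul_of_nonneg_left h1 (by linarith)
  obtain ⟨r, hr, hfr⟩ := intermediate_value_Icc hR1 hcont ⟨hs, hfR⟩
  refine ⟨r, hr.1, hfr, ?_⟩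
  by_contra hcon
  push Not at hcon
  have hr0' : 0 < r := by linarith [hr.1]
  have h1 : Real.exp (2 * (P0 + C)) ≤ r := by
    have : P0 * Real.exp (2 * (P0 + C)) < P0 * r := lt_of_le_of_lt hn hcon
    exact (lt_of_mul_lt_mul_left this hP0.le).le
  have h2 : 2 * (P0 + C) ≤ Real.log r := by
    rw [Real.le_log_iff_exp_le hr0']; exact h1
  have hlow := h.low (r + t * I) (by simpa using hr0.le.trans hr.1)
  have e : (r + t * I : ℂ).re = r := by simp
  rw [e] at hlow
  have h3 : P0 ≤ (logDeriv F (r + t * I)).re := by linarith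
  have h4 : r * P0 ≤ n := by
    rw [← hfr]
    exact mul_le_mul_of_nonneg_left h3 hr0'.le
  linarith

/-- **The abstract theorem.** -/
theorem lag_pos {b C r0 : ℝ} (hb : 1 / 2 ≤ b) (hC : 1 ≤ C) (hr0 : b < r0) :
    ∃ N : ℝ, ∀ F : ℂ → ℂ, Cls b C F → ∀ (t : ℝ) (n : ℕ), N ≤ n →
      r0 * (logDeriv F (r0 + t * I)).re ≤ n → 0 < Lag F n t := by
  have hpi := Real.pi_gt_three
  have hr00 : 0 < r0 := by linarith
  -- the angle
  have hbr : b / r0 < 1 := by rw [div_lt_one hr00]; exact hr0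
  have harc : 0 < Real.arccos (b / r0) := by
    rw [Real.arccos_pos]; exact hbr
  set θ₁ : ℝ := min 1 (Real.arccos (b / r0)) with hθ₁
  have hθ0 : 0 < θ₁ := lt_min one_pos harc
  have hθ1 : θ₁ ≤ 1 := min_le_left _ _
  have hcos : ∀ r : ℝ, r0 ≤ r → b ≤ r * Real.cos θ₁ := by
    intro r hr
    have h1 : b / r0 ≤ Real.cos θ₁ := by
      calc b / r0 = Real.cos (Real.arccos (b / r0)) := (Real.cos_arccos (by
            have : 0 ≤ b / r0 := by positivity
            linarith) hbr.le).symm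
        _ ≤ _ := Real.cos_le_cos_of_nonneg_of_le_pi hθ0.le (Real.arccos_le_pi _) (min_le_right _ _)
    have h2 : 0 ≤ Real.cos θ₁ := le_trans (by positivity) h1
    calc b = r0 * (b / r0) := by field_simp
      _ ≤ r0 * Real.cos θ₁ := by gcongr
      _ ≤ r * Real.cos θ₁ := by gcongr
  set P0 : ℝ := 4000 * C / θ₁ ^ 2 with hP0
  have hP00 : 0 < P0 := by positivity
  set K0 : ℝ := 2 * (C ^ 2 / 4 + b ^ 2) + 2 * C * b with hK0
  obtain ⟨N1, hN1⟩ := exp_small K0 (θ₁ ^ 2 / 3) (by positivity)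
  refine ⟨max (max 10000 (1 / θ₁ ^ 2)) (max N1 (P0 * Real.exp (2 * (P0 + C)))), ?_⟩
  intro F h t n hn hs
  have hn1 : (10000 : ℝ) ≤ n := ((le_max_left _ _).trans (le_max_left _ _)).trans hn
  have hn2 : 1 / θ₁ ^ 2 ≤ n := ((le_max_right _ _).trans (le_max_left _ _)).trans hn
  have hn3 : N1 ≤ n := ((le_max_left _ _).trans (le_max_right _ _)).trans hn
  have hn4 : P0 * Real.exp (2 * (P0 + C)) ≤ n := ((le_max_right _ _).trans (le_max_right _ _)).trans hn
  obtain ⟨r, hr, hrn, hrP⟩ := exists_saddle h hr0 hP00 hn4 hs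
  have hr0' : 0 < r := by linarith
  have hn0 : (0 : ℝ) < n := by linarith
  -- `r` is small
  have hrs : 4000 * C * r ≤ θ₁ ^ 2 * n := by
    have : 4000 * C / θ₁ ^ 2 * r ≤ n := hrP
    rw [div_mul_eq_mul_div, div_le_iff₀ (by positivity)] at this
    linarith
  have hθsq : θ₁ ^ 2 ≤ 1 := by nlinarith
  rw [Lag_eq h.diff h.cj h.fe n t hr0']
  refine mul_pos (by positivity) ?_
  have hre : b ≤ (r : ℂ).re := by simpa using hr0.le.trans hr
  have hΦ0 := h.Ph_ne (t := t) hre
  have hΦre : Ph F t r = ((‖F (r + t * I)‖ ^ 2 : ℝ) : ℂ) := (Ph_real h.cj t r).symm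
  have hΦpos : 0 < ‖F (r + t * I)‖ ^ 2 := by
    have : F (r + t * I) ≠ 0 := h.ne _ (by simpa using hr0.le.trans hr)
    have := norm_pos_iff.2 this
    positivity
  -- normalisation
  have hnorm : (∫ θ in (-(Real.pi / 2))..(Real.pi / 2), ig (Ph F t) n r θ).re =
      ‖F (r + t * I)‖ ^ 2 *
        (∫ θ in (-(Real.pi / 2))..(Real.pi / 2), ig (Ph F t) n r θ / Ph F t r).re := by
    rw [← Complex.re_ofReal_mul, ← hΦre, ← intervalIntegral.integral_const_mul]
    congr 2
    funext θ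
    field_simp
  rw [hnorm]
  refine mul_pos hΦpos ?_
  -- symmetry
  have hsym : ∀ θ : ℝ, ig (Ph F t) n r (-θ) / Ph F t r = conj (ig (Ph F t) n r θ / Ph F t r) := by
    intro θ
    rw [ig_neg h.cj, map_div₀, hΦre, Complex.conj_ofReal]
  have hnear : ∀ θ : ℝ, 0 ≤ θ → θ ≤ θ₁ → ‖ig (Ph F t) n r θ / Ph F t r - sad n θ‖ ≤
      Real.exp (-(2 / 5 * (n * θ ^ 2))) * (Real.exp (1 / 1000 * (n * θ ^ 2)) - 1) := by
    intro θ h0 h1
    have hc : b ≤ r * Real.cos θ := by
      refine (hcos r hr).trans (mul_le_mul_of_nonneg_left ?_ hr0'.le)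
      exact Real.cos_le_cos_of_nonneg_of_le_pi h0 (by linarith) h1
    refine (h.near hrn h0 (h1.trans hθ1) hc).trans ?_
    refine mul_le_mul_of_nonneg_left (sub_le_sub_right (Real.exp_le_exp.2 ?_) 1) (Real.exp_pos _).le
    have h2 : 4 * C * r ≤ 1 / 1000 * n := by nlinarith
    calc 4 * C * r * θ ^ 2 ≤ 1 / 1000 * n * θ ^ 2 := by gcongr
      _ = _ := by ring
  have hfar : ∀ θ : ℝ, θ₁ ≤ θ → θ ≤ Real.pi / 2 → ‖ig (Ph F t) n r θ / Ph F t r‖ ≤
      Real.exp (K0 - θ₁ ^ 2 / 3 * n) := by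
    intro θ h0 h1
    refine (h.far hrn (hr0.le.trans hr) hθ0.le hθ1 (hcos r hr) h0 h1).trans ?_
    refine Real.exp_le_exp.2 ?_
    rw [← hK0]
    have h2 : 2 * r * (4 * C + 1) ≤ 10 * C * r := by nlinarith
    have h3 : 4 * C * r * θ₁ ^ 2 ≤ 4 * C * r := by
      have : 0 ≤ 4 * C * r := by positivity
      nlinarith
    nlinarith
  refine core_pos (n := n) (θ₁ := θ₁) (η := 1 / 1000) (δ := Real.exp (K0 - θ₁ ^ 2 / 3 * n))
    ((ig_cont (Ph_diff h.diff t) n r).div_const _) hn1 (by norm_num) le_rfl ?_ ?_ (Real.exp_pos _).le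
    (hN1 n hn3) ?_
  · have h2 : 1 / θ₁ ≤ Real.sqrt n := by
      rw [Real.le_sqrt (by positivity) hn0.le, div_pow, one_pow]
      exact hn2
    rw [div_le_iff₀ hθ0] at h2
    linarith
  · intro θ h1 h2
    rcases le_total 0 θ with h0 | h0
    · rw [abs_of_nonneg h0] at h1
      exact hnear θ h0 h1
    · rw [abs_of_nonpos h0] at h1
      have h3 := hnear (-θ) (by linarith) h1
      have e := hsym (-θ)
      rw [neg_neg] at e
      have e2 := sad_neg n (-θ)
      rw [neg_neg] at e2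
      rw [e, e2, ← map_sub, Complex.norm_conj]
      rwa [neg_sq] at h3
  · intro θ h1 h2
    rcases le_total 0 θ with h0 | h0
    · rw [abs_of_nonneg h0] at h1 h2
      exact hfar θ h1 h2
    · rw [abs_of_nonpos h0] at h1 h2
      have h3 := hfar (-θ) h1 h2
      have e := hsym (-θ)
      rw [neg_neg] at e
      rw [e, Complex.norm_conj]
      exact h3

end

end Pool.Agent.Helper68.UL
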